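import Pool.Agent.V7H52.PX.Ext2

/-! Coarse data of order 19 with 12-plexes, for all orders. -/

set_option autoImplicit false

namespace Pool.Agent.V7H52.PX.E19

open Finset

/-- data -/
def L0 : Fin 19 → Fin 19 → Fin 19 :=
  ![
    ![0, 8, 3, 14, 10, 9, 17, 1, 18, 6, 15, 12, 2, 7, 13, 4, 5, 11, 16],
    ![5, 1, 4, 9, 7, 18, 3, 16, 17, 13, 12, 14, 6, 2, 0, 8, 15, 10, 11],
    ![18, 4, 2, 16, 11, 17, 12, 6, 10, 3, 8, 15, 13, 9, 5, 14, 1, 0, 7],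
    ![14, 17, 1, 3, 15, 12, 11, 0, 16, 5, 13, 2, 18, 6, 4, 10, 9, 7, 8],
    ![2, 15, 11, 0, 4, 10, 1, 13, 12, 16, 3, 5, 17, 14, 9, 7, 18, 8, 6],
    ![17, 3, 14, 12, 16, 5, 10, 8, 7, 2, 6, 1, 4, 18, 11, 9, 0, 13, 15],
    ![16, 0, 10, 1, 12, 7, 6, 2, 14, 11, 5, 9, 3, 17, 8, 18, 4, 15, 13],
    ![15, 16, 6, 18, 13, 8, 5, 7, 4, 12, 14, 17, 11, 3, 10, 0, 2, 9, 1],
    ![9, 10, 7, 11, 1, 14, 18, 15, 8, 4, 2, 13, 5, 16, 6, 17, 3, 12, 0],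
    ![11, 14, 15, 6, 5, 13, 8, 17, 0, 9, 18, 16, 7, 4, 2, 12, 10, 1, 3],
    ![4, 11, 5, 15, 3, 2, 9, 14, 6, 8, 10, 18, 1, 0, 7, 13, 12, 16, 17],
    ![6, 5, 9, 17, 18, 4, 7, 12, 3, 15, 1, 11, 0, 8, 16, 2, 13, 14, 10],
    ![3, 6, 0, 2, 8, 16, 13, 9, 15, 7, 17, 10, 12, 1, 18, 11, 14, 4, 5],
    ![10, 9, 16, 7, 0, 11, 14, 3, 1, 18, 4, 6, 8, 13, 15, 5, 17, 2, 12],
    ![13, 12, 8, 4, 17, 6, 2, 10, 5, 1, 7, 0, 16, 15, 14, 3, 11, 18, 9],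
    ![7, 18, 12, 13, 14, 1, 16, 4, 11, 17, 0, 8, 9, 10, 3, 15, 6, 5, 2],
    ![8, 7, 17, 5, 2, 0, 15, 18, 13, 14, 9, 3, 10, 11, 12, 1, 16, 6, 4],
    ![12, 13, 18, 10, 9, 3, 4, 11, 2, 0, 16, 7, 15, 5, 1, 6, 8, 17, 14],
    ![1, 2, 13, 8, 6, 15, 0, 5, 9, 10, 11, 4, 14, 12, 17, 16, 7, 3, 18]]

/-- data -/
def r0 : Fin 19 → ℕ :=
  ![2, 7, 3, 4, 10, 9, 3, 0, 9, 11, 6, 1, 11, 4, 6, 10, 5, 1, 5]

/-- data -/
def c0 : Fin 19 → ℕ :=
  ![2, 7, 3, 4, 10, 9, 9, 0, 3, 1, 6, 11, 1, 8, 6, 2, 7, 11, 5]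

/-- data -/
def s0 : Fin 19 → ℕ :=
  ![10, 5, 9, 8, 2, 3, 9, 0, 3, 1, 6, 11, 11, 4, 6, 10, 5, 1, 7]

/-- data -/
def p0 : Fin 19 → ℤ :=
  ![1, 1, 1, 1, 1, 1, -1, -1, -1, -1, -1, -1, -1, -1, -1, -1, -1, -1, 1]

/-- data -/
def m0 : Fin 19 → ℤ :=
  ![-1, -1, -1, -1, -1, -1, -1, -1, -1, -1, -1, -1, 1, 1, 1, 1, 1, 1, -1]

/-- data -/
def q0 : Fin 19 → ℤ :=
  ![0, 0, 0, 0, 0, 0, -1, 0, -1, -1, -1, -1, -1, -1, -1, -1, -1, -1, 0]

/-- data -/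
def e0 : Fin 19 → ℤ :=
  ![-1, -1, -1, -1, -1, -1, -3, 0, -3, -3, -3, -3, -2, -2, -2, -2, -2, -2, 0]

/-- data -/
def A0 : Fin 19 → Bool :=
  ![true, true, true, true, true, true, false, false, false, false, false, false, true, true, true, true, true, true, false]

/-- data -/
def B0 : Fin 19 → Bool :=
  ![true, true, true, true, true, true, true, true, true, true, true, true, false, false, false, false, false, false, false]

/-- data -/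
def C0 : Fin 19 → Bool :=
  ![false, false, false, false, false, false, true, true, true, true, true, true, true, true, true, true, true, true, false]

/-- data -/
def P0 : Fin 19 → Finset (Fin 19) :=
  ![
    {1, 3, 5, 6, 8, 9, 11, 12, 14, 16, 17, 18},
    {0, 2, 3, 6, 7, 9, 10, 11, 13, 15, 16, 17},
    {0, 1, 3, 4, 7, 8, 9, 10, 11, 13, 14, 17},
    {0, 1, 2, 4, 5, 6, 8, 11, 12, 14, 16, 18},
    {2, 3, 6, 8, 10, 11, 12, 13, 15, 16, 17, 18},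
    {0, 1, 3, 4, 6, 8, 10, 12, 13, 15, 17, 18},
    {2, 3, 4, 5, 7, 8, 10, 13, 14, 16, 17, 18},
    {0, 1, 2, 5, 6, 9, 10, 11, 12, 14, 15, 17},
    {0, 2, 3, 4, 5, 9, 10, 11, 14, 15, 16, 18},
    {0, 1, 2, 3, 4, 7, 8, 10, 12, 15, 16, 18},
    {1, 2, 4, 5, 7, 11, 12, 13, 14, 15, 16, 18},
    {0, 5, 7, 8, 9, 10, 12, 13, 14, 15, 16, 18},
    {2, 3, 4, 6, 7, 8, 9, 13, 14, 15, 16, 17},
    {0, 1, 2, 4, 5, 7, 8, 9, 10, 11, 16, 17},
    {0, 1, 2, 3, 5, 6, 7, 8, 10, 12, 17, 18},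
    {0, 1, 5, 6, 7, 9, 11, 12, 13, 14, 17, 18},
    {1, 3, 4, 5, 6, 7, 8, 9, 11, 12, 13, 15},
    {1, 4, 6, 7, 9, 10, 11, 12, 13, 14, 15, 18},
    {0, 2, 3, 4, 5, 6, 9, 13, 14, 15, 16, 17}]

/-- data -/
def U0 : Fin 19 → Finset (Fin 19) :=
  ![
    {17},
    {17},
    {14},
    {16},
    {15},
    {12},
    {14, 16},
    {9, 15},
    {10, 11},
    {1, 7},
    {4, 13},
    {0, 8},
    {13},
    {2},
    {6},
    {5},
    {3},
    {12},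
    ∅]

/-- carries -/
def t0 (J S : Fin 19) : ℕ := (c0 J + s0 S + 11) / 12

/-- the coarse data -/
def data : Ext 19 12 where
  L := L0
  r := r0
  c := c0
  s := s0
  P := P0
  U := U0
  p := p0
  m := m0
  q := q0
  e := e0
  A := A0
  B := B0
  C := C0
  t := t0
  hrow := by decide +kernel
  hcol := by decide +kernel
  hdiag := by decide +kernel
  hPd := by decide +kernel
  hUP := by decide +kernel
  hp := by decide +kernel
  hm := by decide +kernel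
  hzero := by decide +kernel
  hA := by decide +kernel
  hB := by decide +kernel
  hC := by decide +kernel
  hcard := by decide +kernel
  hpcol := by decide +kernel
  hpsym := by decide +kernel
  hucard := by decide +kernel
  hucol := by decide +kernel
  husym := by decide +kernel
  hsA := by decide +kernel
  hsB := by decide +kernel
  hsC := by decide +kernel

theorem total : ∑ I, data.r I + ∑ J, data.c J + ∑ S, data.s S = 323 := by decide +kernel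

end Pool.Agent.V7H52.PX.E19
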