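import Pool.Agent.V7H52.PX.Blow

/-! The coarse data of order 24 with 17-plexes. -/

set_option autoImplicit false

namespace Pool.Agent.V7H52.PX.D24

open Finset

def LA : Fin 24 → Fin 24 → Fin 24 :=
  ![
    ![10, 0, 23, 4, 21, 22, 6, 19, 18, 16, 15, 20, 14, 7, 13, 11, 12, 9, 8, 17, 5, 3, 2, 1],
    ![23, 8, 22, 21, 20, 6, 19, 16, 17, 3, 14, 13, 0, 12, 11, 10, 9, 15, 7, 5, 4, 2, 1, 18],
    ![1, 23, 21, 22, 7, 20, 18, 17, 16, 15, 5, 14, 13, 11, 12, 9, 10, 8, 2, 6, 3, 19, 4, 0],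
    ![22, 21, 1, 20, 18, 19, 16, 6, 15, 14, 2, 12, 11, 9, 10, 8, 13, 7, 5, 3, 17, 4, 0, 23],
    ![21, 22, 20, 23, 19, 18, 17, 15, 0, 7, 13, 11, 12, 10, 9, 5, 8, 3, 6, 4, 2, 1, 16, 14],
    ![11, 20, 19, 18, 17, 16, 15, 14, 3, 13, 12, 9, 10, 8, 2, 23, 7, 5, 4, 1, 6, 0, 22, 21],
    ![20, 13, 18, 19, 16, 17, 4, 21, 14, 12, 11, 10, 9, 15, 8, 7, 0, 6, 3, 2, 1, 5, 23, 22],
    ![19, 18, 17, 16, 15, 9, 14, 2, 13, 11, 10, 3, 8, 22, 1, 6, 5, 4, 12, 7, 0, 23, 21, 20],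
    ![16, 17, 15, 9, 2, 14, 13, 11, 12, 10, 22, 23, 7, 6, 5, 4, 3, 20, 1, 0, 18, 21, 8, 19],
    ![17, 16, 13, 15, 14, 0, 21, 12, 11, 9, 8, 7, 1, 5, 6, 3, 4, 2, 19, 18, 23, 22, 20, 10],
    ![0, 15, 7, 14, 13, 11, 12, 10, 9, 8, 19, 6, 5, 3, 4, 1, 2, 21, 17, 23, 22, 20, 18, 16],
    ![15, 12, 14, 8, 23, 13, 11, 9, 10, 18, 7, 5, 6, 4, 3, 2, 20, 1, 0, 22, 21, 16, 19, 17],
    ![14, 9, 16, 13, 11, 12, 10, 8, 19, 5, 6, 4, 3, 2, 7, 22, 1, 0, 23, 21, 20, 18, 17, 15],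
    ![13, 5, 11, 12, 9, 10, 8, 18, 7, 6, 4, 2, 16, 1, 14, 0, 21, 23, 22, 20, 19, 17, 15, 3],
    ![12, 11, 9, 10, 8, 21, 7, 5, 6, 4, 3, 1, 2, 18, 0, 17, 23, 22, 20, 19, 16, 15, 14, 13],
    ![9, 10, 8, 17, 12, 7, 5, 3, 4, 2, 1, 0, 20, 13, 23, 21, 22, 19, 18, 16, 15, 14, 6, 11],
    ![8, 19, 10, 7, 6, 5, 3, 4, 2, 1, 0, 17, 23, 21, 22, 20, 11, 18, 16, 15, 14, 13, 12, 9],
    ![2, 7, 5, 6, 4, 3, 23, 1, 8, 0, 16, 21, 22, 20, 15, 18, 19, 17, 10, 14, 13, 11, 9, 12],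
    ![7, 14, 6, 5, 3, 4, 2, 13, 1, 17, 23, 22, 21, 0, 20, 19, 18, 16, 15, 9, 11, 12, 10, 8],
    ![5, 6, 4, 3, 22, 2, 1, 0, 20, 23, 21, 8, 15, 19, 18, 16, 17, 10, 14, 13, 12, 9, 11, 7],
    ![4, 3, 2, 0, 5, 1, 20, 23, 22, 21, 9, 19, 18, 17, 16, 14, 15, 11, 13, 12, 10, 8, 7, 6],
    ![3, 4, 12, 2, 1, 8, 0, 7, 23, 22, 20, 18, 19, 16, 17, 15, 6, 14, 21, 11, 9, 10, 13, 5],
    ![6, 2, 3, 1, 0, 15, 9, 22, 21, 20, 18, 16, 17, 23, 19, 12, 14, 13, 11, 10, 8, 7, 5, 4],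
    ![18, 1, 0, 11, 10, 23, 22, 20, 5, 19, 17, 15, 4, 14, 21, 13, 16, 12, 9, 8, 7, 6, 3, 2]]

def LB : Fin 24 → Fin 24 → Fin 24 :=
  ![
    ![8, 0, 3, 23, 22, 21, 20, 19, 18, 17, 15, 5, 14, 13, 1, 12, 11, 10, 7, 16, 6, 4, 2, 9],
    ![0, 15, 23, 20, 21, 22, 4, 18, 19, 16, 10, 14, 6, 2, 13, 11, 12, 9, 8, 7, 5, 3, 17, 1],
    ![23, 6, 22, 21, 20, 15, 18, 16, 17, 7, 4, 13, 0, 12, 11, 10, 9, 8, 19, 5, 3, 2, 1, 14],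
    ![1, 23, 21, 22, 2, 20, 19, 17, 16, 15, 14, 8, 13, 11, 12, 9, 10, 7, 5, 6, 4, 18, 3, 0],
    ![22, 21, 20, 1, 19, 18, 16, 15, 7, 14, 5, 11, 12, 10, 9, 8, 13, 3, 6, 4, 2, 23, 0, 17],
    ![20, 2, 18, 19, 17, 16, 15, 13, 14, 5, 11, 10, 9, 23, 8, 7, 22, 6, 4, 3, 1, 0, 12, 21],
    ![21, 20, 19, 18, 16, 17, 6, 14, 15, 13, 12, 9, 10, 8, 4, 0, 7, 5, 3, 2, 11, 1, 23, 22],
    ![19, 18, 17, 16, 15, 0, 14, 20, 13, 12, 9, 23, 8, 3, 7, 6, 5, 4, 2, 1, 22, 10, 21, 11],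
    ![16, 17, 15, 0, 14, 19, 9, 11, 12, 10, 8, 2, 7, 6, 5, 3, 4, 1, 21, 13, 23, 22, 20, 18],
    ![17, 16, 8, 15, 23, 14, 13, 12, 11, 9, 18, 7, 20, 5, 6, 4, 3, 2, 1, 10, 0, 21, 22, 19],
    ![15, 22, 1, 14, 12, 13, 11, 10, 9, 8, 7, 6, 5, 4, 3, 2, 17, 19, 0, 23, 21, 20, 18, 16],
    ![5, 14, 13, 17, 11, 12, 10, 9, 8, 18, 6, 3, 4, 7, 2, 21, 1, 0, 23, 22, 20, 19, 16, 15],
    ![13, 19, 11, 12, 10, 9, 8, 7, 21, 6, 3, 17, 2, 1, 14, 5, 0, 23, 22, 20, 18, 16, 15, 4],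
    ![12, 11, 9, 10, 18, 8, 7, 5, 6, 3, 13, 4, 1, 21, 0, 23, 2, 22, 16, 19, 17, 15, 14, 20],
    ![11, 12, 10, 9, 8, 7, 22, 6, 5, 4, 2, 1, 3, 0, 15, 14, 23, 21, 20, 18, 16, 17, 19, 13],
    ![10, 9, 16, 8, 7, 11, 5, 4, 3, 2, 1, 0, 15, 19, 23, 22, 21, 20, 18, 17, 14, 6, 13, 12],
    ![9, 8, 14, 7, 6, 5, 3, 2, 4, 1, 0, 12, 23, 22, 21, 16, 20, 18, 17, 15, 19, 13, 11, 10],
    ![7, 13, 6, 5, 4, 3, 2, 8, 1, 0, 16, 21, 22, 9, 20, 18, 19, 17, 12, 14, 15, 11, 10, 23],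
    ![14, 7, 5, 6, 3, 4, 17, 1, 2, 11, 23, 22, 21, 20, 10, 19, 18, 16, 15, 0, 13, 12, 9, 8],
    ![6, 5, 4, 3, 13, 2, 1, 0, 10, 23, 22, 20, 11, 18, 19, 17, 16, 15, 14, 21, 12, 9, 8, 7],
    ![4, 3, 2, 13, 5, 1, 12, 23, 0, 22, 21, 18, 19, 17, 16, 20, 15, 14, 9, 11, 10, 8, 7, 6],
    ![3, 4, 7, 2, 1, 10, 0, 22, 23, 21, 20, 19, 18, 16, 17, 15, 8, 11, 13, 12, 9, 14, 6, 5],
    ![2, 10, 12, 4, 0, 6, 23, 21, 22, 20, 19, 16, 17, 15, 18, 1, 14, 13, 11, 9, 8, 7, 5, 3],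
    ![18, 1, 0, 11, 9, 23, 21, 3, 20, 19, 17, 15, 16, 14, 22, 13, 6, 12, 10, 8, 7, 5, 4, 2]]

/-- the two coarse squares -/
def Lc (b : Bool) : Fin 24 → Fin 24 → Fin 24 := if b then LB else LA

def rA : Fin 24 → ℕ :=
  ![0, 1, 1, 2, 2, 3, 3, 4, 5, 5, 6, 6, 7, 8, 9, 10, 11, 12, 12, 13, 14, 14, 15, 16]

def rB : Fin 24 → ℕ :=
  ![0, 0, 1, 1, 2, 3, 3, 4, 5, 5, 6, 7, 8, 9, 9, 10, 11, 12, 12, 13, 14, 14, 15, 16]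

/-- row labels -/
def rc (b : Bool) : Fin 24 → ℕ := if b then rB else rA

/-- column labels -/
def cl : Fin 24 → ℕ :=
  ![0, 0, 1, 1, 2, 2, 3, 4, 4, 5, 6, 7, 7, 8, 8, 9, 9, 10, 11, 12, 13, 14, 15, 16]

/-- symbol labels -/
def sl : Fin 24 → ℕ :=
  ![0, 1, 2, 3, 3, 4, 4, 5, 6, 7, 7, 8, 8, 9, 10, 11, 12, 12, 13, 13, 14, 15, 15, 16]

def tau (J S : Fin 24) : ℕ := (cl J + sl S + 16) / 17

def pA : Fin 24 → Finset (Fin 24) :=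
  ![
    {1, 2, 4, 5, 7, 8, 9, 10, 12, 14, 15, 16, 17, 18, 20, 21, 22},
    {0, 2, 3, 4, 6, 7, 8, 10, 13, 14, 15, 16, 18, 19, 20, 21, 22},
    {1, 2, 3, 5, 6, 7, 8, 9, 12, 13, 14, 15, 16, 17, 19, 20, 23},
    {0, 1, 3, 4, 5, 6, 8, 9, 11, 12, 13, 14, 15, 17, 18, 19, 22},
    {0, 1, 2, 4, 5, 6, 7, 10, 11, 12, 13, 14, 16, 18, 19, 20, 21},
    {1, 2, 3, 4, 5, 6, 7, 9, 10, 11, 12, 13, 16, 17, 18, 21, 23},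
    {0, 2, 3, 4, 5, 8, 10, 11, 12, 14, 15, 17, 18, 19, 20, 22, 23},
    {0, 1, 2, 3, 4, 6, 8, 9, 10, 12, 15, 16, 17, 20, 21, 22, 23},
    {0, 1, 2, 5, 6, 7, 8, 9, 12, 13, 14, 15, 16, 18, 19, 21, 23},
    {0, 1, 3, 4, 7, 8, 9, 10, 11, 13, 14, 15, 16, 17, 20, 21, 22},
    {1, 3, 4, 6, 7, 8, 9, 11, 12, 13, 14, 16, 19, 20, 21, 22, 23},
    {0, 2, 5, 6, 7, 8, 10, 11, 12, 13, 14, 15, 17, 18, 20, 22, 23},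
    {0, 3, 4, 5, 6, 7, 10, 11, 12, 13, 16, 17, 18, 19, 21, 22, 23},
    {0, 2, 3, 4, 5, 8, 9, 10, 11, 13, 15, 17, 18, 19, 20, 21, 22},
    {0, 1, 2, 3, 4, 6, 7, 8, 11, 14, 16, 17, 18, 19, 21, 22, 23},
    {0, 1, 2, 5, 6, 7, 8, 9, 10, 11, 14, 15, 16, 18, 19, 20, 23},
    {0, 3, 4, 5, 6, 8, 9, 10, 12, 13, 14, 15, 17, 18, 21, 22, 23},
    {1, 2, 3, 4, 5, 7, 9, 11, 12, 13, 15, 16, 17, 19, 20, 21, 22},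
    {0, 2, 3, 4, 5, 6, 8, 10, 11, 12, 14, 15, 16, 17, 21, 22, 23},
    {0, 1, 2, 3, 5, 6, 7, 9, 10, 13, 14, 15, 16, 18, 19, 20, 23},
    {0, 1, 2, 5, 7, 9, 11, 12, 13, 14, 16, 18, 19, 20, 21, 22, 23},
    {0, 1, 3, 4, 6, 8, 9, 10, 11, 12, 13, 14, 15, 17, 19, 20, 23},
    {1, 3, 4, 7, 8, 9, 10, 11, 12, 16, 17, 18, 19, 20, 21, 22, 23},
    {1, 2, 5, 6, 7, 9, 10, 11, 13, 15, 17, 18, 19, 20, 21, 22, 23}]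

def pB : Fin 24 → Finset (Fin 24) :=
  ![
    {1, 3, 4, 5, 6, 7, 8, 9, 10, 12, 13, 15, 16, 17, 20, 21, 22},
    {0, 2, 4, 5, 7, 8, 9, 11, 14, 15, 16, 17, 18, 19, 20, 21, 23},
    {0, 2, 3, 4, 6, 7, 8, 11, 13, 14, 15, 16, 17, 19, 20, 21, 22},
    {1, 2, 3, 5, 6, 7, 8, 9, 10, 12, 13, 14, 15, 16, 19, 20, 23},
    {0, 1, 2, 4, 5, 6, 7, 9, 11, 12, 13, 14, 15, 18, 19, 20, 22},
    {0, 2, 3, 4, 5, 6, 8, 10, 11, 12, 14, 15, 17, 18, 20, 21, 23},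
    {1, 2, 3, 4, 5, 7, 9, 10, 11, 12, 13, 16, 17, 18, 19, 22, 23},
    {0, 1, 2, 3, 4, 6, 8, 9, 10, 12, 14, 15, 16, 17, 18, 19, 22},
    {0, 1, 2, 4, 7, 8, 9, 10, 12, 13, 14, 15, 16, 20, 21, 22, 23},
    {0, 1, 3, 5, 6, 7, 8, 9, 11, 13, 14, 15, 16, 17, 18, 21, 23},
    {0, 3, 5, 6, 7, 8, 10, 11, 12, 13, 14, 15, 18, 20, 21, 22, 23},
    {1, 2, 4, 5, 6, 8, 10, 11, 12, 14, 16, 17, 18, 19, 20, 21, 23},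
    {0, 2, 3, 4, 5, 7, 9, 10, 12, 13, 16, 17, 18, 19, 20, 21, 22},
    {0, 1, 2, 3, 5, 6, 7, 8, 9, 12, 14, 15, 17, 19, 20, 21, 22},
    {0, 1, 2, 3, 4, 7, 8, 9, 10, 11, 13, 16, 17, 18, 19, 20, 23},
    {0, 1, 3, 4, 6, 7, 8, 9, 10, 11, 14, 15, 16, 18, 19, 22, 23},
    {1, 3, 4, 5, 6, 9, 10, 12, 13, 14, 16, 17, 18, 19, 21, 22, 23},
    {0, 2, 3, 4, 5, 6, 8, 9, 11, 12, 14, 15, 16, 17, 19, 21, 22},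
    {1, 2, 3, 4, 5, 7, 10, 11, 12, 13, 15, 17, 18, 20, 21, 22, 23},
    {0, 1, 2, 3, 5, 6, 7, 10, 11, 13, 14, 15, 16, 18, 21, 22, 23},
    {0, 1, 2, 5, 7, 9, 11, 12, 13, 14, 16, 17, 19, 20, 21, 22, 23},
    {0, 1, 3, 4, 6, 8, 9, 10, 11, 12, 13, 14, 15, 18, 19, 20, 23},
    {0, 4, 6, 7, 8, 10, 11, 12, 13, 16, 17, 18, 19, 20, 21, 22, 23},
    {1, 2, 5, 6, 8, 9, 10, 11, 13, 15, 17, 18, 19, 20, 21, 22, 23}]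

/-- the columns of the plex in a coarse row -/
def pc (b : Bool) : Fin 24 → Finset (Fin 24) := if b then pB else pA

theorem Lc_row : ∀ (b : Bool) (I J J' : Fin 24), Lc b I J = Lc b I J' → J = J' := by
  decide +kernel

theorem Lc_col : ∀ (b : Bool) (J I I' : Fin 24), Lc b I J = Lc b I' J → I = I' := by
  decide +kernel

theorem zero_coarse : ∀ (b : Bool) (I J : Fin 24), J ∈ pc b I →
    rc b I + cl J + sl (Lc b I J) = 17 * tau J (Lc b I J) := by decide +kernel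

theorem pc_card : ∀ (b : Bool) (I : Fin 24), (pc b I).card = 17 := by decide +kernel

theorem pc_col : ∀ (b : Bool) (J : Fin 24),
    (∑ I : Fin 24, if J ∈ pc b I then 1 else 0) = 17 := by decide +kernel

theorem pc_sym : ∀ (b : Bool) (S : Fin 24),
    (∑ I : Fin 24, ∑ J : Fin 24, if J ∈ pc b I ∧ Lc b I J = S then 1 else 0) = 17 := by
  decide +kernel

/-- the coarse data -/
def data : Coarse 24 17 where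
  L := Lc
  r := rc
  c := cl
  s := sl
  p := pc
  t := tau
  hrow := Lc_row
  hcol := Lc_col
  hzero := zero_coarse
  hcard := pc_card
  hpcol := pc_col
  hpsym := pc_sym

theorem sumA : ∑ I, data.r false I + ∑ J, data.c J + ∑ S, data.s S = 17 * 32 := by decide +kernel

theorem sumB : ∑ I, data.r true I = ∑ I, data.r false I + 1 := by decide +kernel

end Pool.Agent.V7H52.PX.D24
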