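import Mathlib

/-!
# Indivisible plexes by zero-sum labels and a cyclic blow-up

Rows, columns and symbols of a Latin square of order `n` get labels in `ZMod k`. If the labels of
every cell of a `k`-plex add up to `0` and the sum of all labels is a unit, then the plex is
indivisible. The blow-up: two coarse Latin squares of order `n₀` with `k₀`-plexes, with the same
column and symbol labels and with row labels whose sums differ by `1`, give a Latin square of order
`n₀ g` with an indivisible `k₀ g`-plex, for every `g`.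
-/

set_option autoImplicit false

namespace Pool.Agent.V7H52.PX

open Finset

/-- Latin square: every row and every column contains every symbol exactly once. -/
def IsLatin {R C S : Type} (L : R → C → S) : Prop :=
  (∀ i, Function.Bijective (L i)) ∧ ∀ j, Function.Bijective fun i => L i j

/-- `P` is a `k`-plex of `L`: a set of cells with exactly `k` cells in every row, `k` cells in every
column and `k` cells carrying each symbol. -/
def IsPlex {R C S : Type} [DecidableEq R] [DecidableEq C] [DecidableEq S]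
    (L : R → C → S) (k : ℕ) (P : Finset (R × C)) : Prop :=
  (∀ i, (P.filter fun c => c.1 = i).card = k) ∧
  (∀ j, (P.filter fun c => c.2 = j).card = k) ∧
  ∀ s, (P.filter fun c => L c.1 c.2 = s).card = k

/-- an indivisible `k`-plex: it contains no `c`-plex with `0 < c < k`. -/
def IsIndivisible {R C S : Type} [DecidableEq R] [DecidableEq C] [DecidableEq S]
    (L : R → C → S) (k : ℕ) (P : Finset (R × C)) : Prop :=
  IsPlex L k P ∧ ∀ c, 0 < c → c < k → ∀ Q, Q ⊆ P → ¬ IsPlex L c Q

/-- `κ(n)`: the largest `k ≥ 1` such that some Latin square of order `n` contains an indivisible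
`k`-plex. -/
noncomputable def kappa (n : ℕ) : ℕ :=
  sSup {k | 1 ≤ k ∧ ∃ L : Fin n → Fin n → Fin n, IsLatin L ∧ ∃ P, IsIndivisible L k P}

/-! ### zero-sum labels force indivisibility -/

theorem sum_label {A T : Type} [Fintype T] [DecidableEq T] (Q : Finset A) (f : A → T) {k c : ℕ}
    (w : T → ZMod k) (h : ∀ t, (Q.filter fun p => f p = t).card = c) :
    ∑ p ∈ Q, w (f p) = (c : ZMod k) * ∑ t, w t := by
  rw [← Finset.sum_fiberwise Q f, Finset.mul_sum]
  refine Finset.sum_congr rfl fun t _ => ?_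
  rw [Finset.sum_congr rfl (g := fun _ => w t)
    (fun p hp => by rw [(Finset.mem_filter.mp hp).2])]
  rw [Finset.sum_const, h t, nsmul_eq_mul]

theorem indivisible_of_label {R C S : Type} [Fintype R] [Fintype C] [Fintype S]
    [DecidableEq R] [DecidableEq C] [DecidableEq S] (L : R → C → S) (k : ℕ)
    (P : Finset (R × C)) (hP : IsPlex L k P) (a : R → ZMod k) (b : C → ZMod k) (s : S → ZMod k)
    (hz : ∀ p ∈ P, a p.1 + b p.2 + s (L p.1 p.2) = 0)
    (hW : IsUnit (∑ i, a i + ∑ j, b j + ∑ x, s x)) : IsIndivisible L k P := by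
  refine ⟨hP, fun c hc hck Q hQ hQp => ?_⟩
  have h1 := sum_label Q (fun p : R × C => p.1) a hQp.1
  have h2 := sum_label Q (fun p : R × C => p.2) b hQp.2.1
  have h3 := sum_label Q (fun p : R × C => L p.1 p.2) s hQp.2.2
  have h4 : ∑ p ∈ Q, (a p.1 + b p.2 + s (L p.1 p.2)) = 0 :=
    Finset.sum_eq_zero fun p hp => hz p (hQ hp)
  rw [Finset.sum_add_distrib, Finset.sum_add_distrib, h1, h2, h3, ← mul_add, ← mul_add] at h4
  have h5 : (c : ZMod k) = 0 := (hW.mul_left_eq_zero).mp h4
  have h6 := (ZMod.natCast_eq_zero_iff c k).mp h5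
  exact absurd (Nat.le_of_dvd hc h6) (by omega)

theorem transport {R C S : Type} [Fintype R] [Fintype C] [Fintype S]
    [DecidableEq R] [DecidableEq C] [DecidableEq S] (n : ℕ)
    (eR : R ≃ Fin n) (eC : C ≃ Fin n) (eS : S ≃ Fin n)
    (L : R → C → S) (hL : IsLatin L) (k : ℕ)
    (P : Finset (R × C)) (hP : IsPlex L k P) (a : R → ZMod k) (b : C → ZMod k) (s : S → ZMod k)
    (hz : ∀ p ∈ P, a p.1 + b p.2 + s (L p.1 p.2) = 0)
    (hW : IsUnit (∑ i, a i + ∑ j, b j + ∑ x, s x)) :
    ∃ L' : Fin n → Fin n → Fin n, IsLatin L' ∧ ∃ P', IsIndivisible L' k P' := by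
  refine ⟨fun i j => eS (L (eR.symm i) (eC.symm j)), ⟨fun i => ?_, fun j => ?_⟩,
    P.map (eR.prodCongr eC).toEmbedding, ?_⟩
  · exact (eS.bijective.comp (hL.1 (eR.symm i))).comp eC.symm.bijective
  · exact (eS.bijective.comp (hL.2 (eC.symm j))).comp eR.symm.bijective
  · refine indivisible_of_label _ k _ ⟨fun i => ?_, fun j => ?_, fun t => ?_⟩
      (fun i => a (eR.symm i)) (fun j => b (eC.symm j)) (fun x => s (eS.symm x)) ?_ ?_
    · rw [Finset.filter_map, Finset.card_map, ← hP.1 (eR.symm i)]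
      congr 1
      ext p
      simp [Equiv.eq_symm_apply]
    · rw [Finset.filter_map, Finset.card_map, ← hP.2.1 (eC.symm j)]
      congr 1
      ext p
      simp [Equiv.eq_symm_apply]
    · rw [Finset.filter_map, Finset.card_map, ← hP.2.2 (eS.symm t)]
      congr 1
      ext p
      simp [Equiv.eq_symm_apply]
    · intro p hp
      obtain ⟨q, hq, rfl⟩ := Finset.mem_map.mp hp
      simpa using hz q hq
    · rw [Equiv.sum_comp eR.symm a, Equiv.sum_comp eC.symm b, Equiv.sum_comp eS.symm s]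
      exact hW

/-! ### the blow-up -/

/-- the coarse data -/
structure Coarse (n k : ℕ) where
  /-- the two coarse Latin squares -/
  L : Bool → Fin n → Fin n → Fin n
  /-- row labels -/
  r : Bool → Fin n → ℕ
  /-- column labels -/
  c : Fin n → ℕ
  /-- symbol labels -/
  s : Fin n → ℕ
  /-- the columns of the plex in a coarse row -/
  p : Bool → Fin n → Finset (Fin n)
  /-- the carries -/
  t : Fin n → Fin n → ℕ
  hrow : ∀ (b : Bool) (I J J' : Fin n), L b I J = L b I J' → J = J'
  hcol : ∀ (b : Bool) (J I I' : Fin n), L b I J = L b I' J → I = I'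
  hzero : ∀ (b : Bool) (I J : Fin n), J ∈ p b I → r b I + c J + s (L b I J) = k * t J (L b I J)
  hcard : ∀ (b : Bool) (I : Fin n), (p b I).card = k
  hpcol : ∀ (b : Bool) (J : Fin n), (∑ I : Fin n, if J ∈ p b I then 1 else 0) = k
  hpsym : ∀ (b : Bool) (S : Fin n),
    (∑ I : Fin n, ∑ J : Fin n, if J ∈ p b I ∧ L b I J = S then 1 else 0) = k

variable {n k : ℕ} (D : Coarse n k)

theorem kk_mul_cast (k : ℕ) {g a b : ℕ} (h : a ≡ b [MOD g]) :
    ((k : ZMod (k * g)) * (a : ZMod (k * g))) = (k : ZMod (k * g)) * (b : ZMod (k * g)) := by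
  have := (ZMod.natCast_eq_natCast_iff (k * a) (k * b) (k * g)).2 (h.mul_left' k)
  push_cast at this
  exact this

noncomputable def phi (k g : ℕ) [NeZero g] : ZMod g →+ ZMod (k * g) :=
  AddMonoidHom.mk' (fun x => (k : ZMod (k * g)) * ((x.val : ℕ) : ZMod (k * g))) (fun x y => by
    rw [← mul_add, ← Nat.cast_add]
    exact kk_mul_cast k (by rw [ZMod.val_add]; exact Nat.mod_modEq _ _))

theorem phi_natCast (k g : ℕ) [NeZero g] (m : ℕ) :
    phi k g (m : ZMod g) = (k : ZMod (k * g)) * (m : ZMod (k * g)) := by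
  change (k : ZMod (k * g)) * (((m : ZMod g).val : ℕ) : ZMod (k * g)) = _
  exact kk_mul_cast k (by rw [ZMod.val_natCast]; exact Nat.mod_modEq _ _)

theorem two_phi_sum (k g : ℕ) [NeZero g] : (2 : ℕ) • ∑ x : ZMod g, phi k g x = 0 := by
  have h : ∑ x : ZMod g, phi k g x = ∑ x : ZMod g, phi k g (-x) :=
    (Equiv.sum_comp (Equiv.neg (ZMod g)) (fun x => phi k g x)).symm
  rw [two_nsmul]
  nth_rewrite 2 [h]
  rw [← Finset.sum_add_distrib]
  exact Finset.sum_eq_zero fun x _ => by simp

/-- the layer `i` of the rows uses the coarse square `true` for `i = 0` and `false` otherwise -/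
def LL (g : ℕ) (ρ c : Fin n × ZMod g) : Fin n × ZMod g :=
  (D.L (decide (ρ.2 = 0)) ρ.1 c.1,
    -ρ.2 - c.2 - ((D.t c.1 (D.L (decide (ρ.2 = 0)) ρ.1 c.1) : ℕ) : ZMod g))

theorem LL_latin (g : ℕ) [NeZero g] : IsLatin (LL D g) := by
  refine ⟨fun ρ => Finite.injective_iff_bijective.mp ?_,
    fun c => Finite.injective_iff_bijective.mp ?_⟩
  · rintro ⟨J, j⟩ ⟨J', j'⟩ h
    have e1 := congrArg Prod.fst h
    have e2 := congrArg Prod.snd h
    simp only [LL] at e1 e2
    have hJ := D.hrow _ _ _ _ e1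
    subst hJ
    have : j = j' := by
      have e3 := sub_left_injective e2
      simpa using e3
    rw [this]
  · rintro ⟨I, i⟩ ⟨I', i'⟩ h
    have e1 := congrArg Prod.fst h
    have e2 := congrArg Prod.snd h
    simp only [LL] at e1 e2
    rw [e1] at e2
    have e3 := sub_left_injective (sub_left_injective e2)
    have hi : i = i' := by simpa using e3
    subst hi
    have hI := D.hcol _ _ _ _ e1
    rw [hI]

def PP (g : ℕ) [NeZero g] : Finset ((Fin n × ZMod g) × (Fin n × ZMod g)) :=
  Finset.univ.filter fun p => p.2.1 ∈ D.p (decide (p.1.2 = 0)) p.1.1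

theorem PP_row (g : ℕ) [NeZero g] (ρ : Fin n × ZMod g) :
    ((PP D g).filter fun c => c.1 = ρ).card = k * g := by
  have : ((PP D g).filter fun c => c.1 = ρ) =
      ({ρ} : Finset (Fin n × ZMod g)) ×ˢ
        (D.p (decide (ρ.2 = 0)) ρ.1 ×ˢ (Finset.univ : Finset (ZMod g))) := by
    ext p
    simp only [PP, Finset.mem_filter, Finset.mem_univ, true_and, Finset.mem_product,
      Finset.mem_singleton, and_true]
    constructor
    · rintro ⟨h1, h2⟩; subst h2; exact ⟨rfl, h1⟩
    · rintro ⟨h1, h2⟩; subst h1; exact ⟨h2, rfl⟩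
  rw [this, Finset.card_product, Finset.card_product, D.hcard]
  simp [ZMod.card]

theorem PP_col (g : ℕ) [NeZero g] (c : Fin n × ZMod g) :
    ((PP D g).filter fun p => p.2 = c).card = k * g := by
  have h : ((PP D g).filter fun p => p.2 = c) =
      (Finset.univ.filter fun ρ : Fin n × ZMod g => c.1 ∈ D.p (decide (ρ.2 = 0)) ρ.1) ×ˢ
        ({c} : Finset (Fin n × ZMod g)) := by
    ext p
    simp only [PP, Finset.mem_filter, Finset.mem_univ, true_and, Finset.mem_product,
      Finset.mem_singleton]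
    constructor
    · rintro ⟨h1, h2⟩; subst h2; exact ⟨h1, rfl⟩
    · rintro ⟨h1, h2⟩; subst h2; exact ⟨h1, rfl⟩
  rw [h, Finset.card_product, Finset.card_singleton, mul_one, Finset.card_filter,
    Fintype.sum_prod_type_right]
  rw [Finset.sum_congr rfl (fun i _ => D.hpcol (decide (i = 0)) c.1)]
  simp [ZMod.card, mul_comm]

theorem PP_sym (g : ℕ) [NeZero g] (s : Fin n × ZMod g) :
    ((PP D g).filter fun p => LL D g p.1 p.2 = s).card = k * g := by
  have h1 : ((PP D g).filter fun p => LL D g p.1 p.2 = s).card =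
      (Finset.univ.filter fun q : (Fin n × ZMod g) × Fin n =>
        q.2 ∈ D.p (decide (q.1.2 = 0)) q.1.1 ∧
          D.L (decide (q.1.2 = 0)) q.1.1 q.2 = s.1).card := by
    refine Finset.card_nbij' (fun p => (p.1, p.2.1))
      (fun q => (q.1, (q.2, -q.1.2 -
        ((D.t q.2 (D.L (decide (q.1.2 = 0)) q.1.1 q.2) : ℕ) : ZMod g) - s.2))) ?_ ?_ ?_ ?_
    · intro p hp
      simp only [PP, Finset.coe_filter, Finset.mem_filter, Finset.mem_univ, true_and,
        Set.mem_ofPred_eq] at hp ⊢
      refine ⟨hp.1, ?_⟩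
      rw [← hp.2]
      rfl
    · intro q hq
      simp only [PP, Finset.coe_filter, Finset.mem_filter, Finset.mem_univ, true_and,
        Set.mem_ofPred_eq] at hq ⊢
      refine ⟨hq.1, ?_⟩
      refine Prod.ext hq.2 ?_
      simp only [LL]
      ring
    · rintro ⟨ρ, J, j⟩ hp
      simp only [PP, Finset.coe_filter, Finset.mem_filter, Finset.mem_univ, true_and,
        Set.mem_ofPred_eq] at hp ⊢
      have e2 := congrArg Prod.snd hp.2
      simp only [LL] at e2
      rw [← e2]
      refine Prod.ext rfl (Prod.ext rfl ?_)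
      simp only
      ring
    · rintro ⟨ρ, J⟩ hq
      rfl
  rw [h1, Finset.card_filter, Fintype.sum_prod_type, Fintype.sum_prod_type_right]
  rw [Finset.sum_congr rfl (fun i _ => D.hpsym (decide (i = 0)) s.1)]
  simp [ZMod.card, mul_comm]

/-- row labels -/
noncomputable def lamR (g : ℕ) [NeZero g] (ρ : Fin n × ZMod g) : ZMod (k * g) :=
  (D.r (decide (ρ.2 = 0)) ρ.1 : ZMod (k * g)) + phi k g ρ.2

noncomputable def lamC (g : ℕ) [NeZero g] (c : Fin n × ZMod g) : ZMod (k * g) :=
  (D.c c.1 : ZMod (k * g)) + phi k g c.2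

noncomputable def lamS (g : ℕ) [NeZero g] (s : Fin n × ZMod g) : ZMod (k * g) :=
  (D.s s.1 : ZMod (k * g)) + phi k g s.2

theorem PP_zero (g : ℕ) [NeZero g]
    (p : (Fin n × ZMod g) × (Fin n × ZMod g)) (hp : p ∈ PP D g) :
    lamR D g p.1 + lamC D g p.2 + lamS D g (LL D g p.1 p.2) = 0 := by
  obtain ⟨⟨I, i⟩, J, j⟩ := p
  simp only [PP, Finset.mem_filter, Finset.mem_univ, true_and] at hp
  have hz := D.hzero _ _ _ hp
  simp only [lamR, lamC, lamS, LL, map_sub, map_neg, phi_natCast]
  have hz' := congrArg (fun m : ℕ => (m : ZMod (k * g))) hz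
  simp only [Nat.cast_add, Nat.cast_mul] at hz'
  linear_combination hz'

theorem phi_total (k g m : ℕ) [NeZero g] :
    ∑ _I : Fin (2 * m), ∑ x : ZMod g, phi k g x = 0 := by
  rw [Finset.sum_const, Finset.card_univ, Fintype.card_fin, mul_nsmul, two_phi_sum,
    nsmul_zero]

theorem phi_total' (k g m : ℕ) [NeZero g] :
    ((Fintype.card (Fin (2 * m)) : ℕ) : ZMod (k * g)) * ∑ x : ZMod g, phi k g x = 0 := by
  rw [← nsmul_eq_mul, Fintype.card_fin, mul_nsmul, two_phi_sum, nsmul_zero]

theorem W_eq {m w d : ℕ} (E : Coarse (2 * m) k) (g : ℕ) [NeZero g]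
    (hA : ∑ I, E.r false I + ∑ J, E.c J + ∑ S, E.s S = k * w)
    (hB : ∑ I, E.r true I = ∑ I, E.r false I + d) :
    ∑ ρ, lamR E g ρ + ∑ c, lamC E g c + ∑ s, lamS E g s = (d : ZMod (k * g)) := by
  have hC : ∑ c, lamC E g c = ((g * ∑ J, E.c J : ℕ) : ZMod (k * g)) := by
    simp only [lamC]
    rw [Fintype.sum_prod_type]
    simp only [Finset.sum_add_distrib, Finset.sum_const, Finset.card_univ,
      ZMod.card, nsmul_eq_mul]
    rw [phi_total', ← Finset.mul_sum, add_zero]
    push_cast
    rfl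
  have hS : ∑ s, lamS E g s = ((g * ∑ J, E.s J : ℕ) : ZMod (k * g)) := by
    simp only [lamS]
    rw [Fintype.sum_prod_type]
    simp only [Finset.sum_add_distrib, Finset.sum_const, Finset.card_univ,
      ZMod.card, nsmul_eq_mul]
    rw [phi_total', ← Finset.mul_sum, add_zero]
    push_cast
    rfl
  have hR : ∑ ρ, lamR E g ρ = ((g * ∑ I, E.r false I : ℕ) : ZMod (k * g)) +
      ((d : ℕ) : ZMod (k * g)) := by
    simp only [lamR]
    rw [Finset.sum_add_distrib]
    have hphi : ∑ ρ : Fin (2 * m) × ZMod g, phi k g ρ.2 = 0 := by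
      rw [Fintype.sum_prod_type]
      exact phi_total k g m
    rw [hphi, add_zero, Fintype.sum_prod_type_right]
    have hi : ∀ i : ZMod g, ∑ I : Fin (2 * m), ((E.r (decide (i = 0)) I : ℕ) : ZMod (k * g)) =
        ((∑ I, E.r false I : ℕ) : ZMod (k * g)) +
          (if i = 0 then ((d : ℕ) : ZMod (k * g)) else 0) := by
      intro i
      rw [← Nat.cast_sum]
      by_cases h : i = 0
      · simp only [h, decide_true, if_true, hB]
        push_cast
        ring
      · simp [h]
    rw [Finset.sum_congr rfl (fun i _ => hi i), Finset.sum_add_distrib, Finset.sum_const,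
      Finset.sum_ite_eq', if_pos (Finset.mem_univ _), Finset.card_univ, ZMod.card, nsmul_eq_mul]
    push_cast
    ring
  have hz : ((k * g : ℕ) : ZMod (k * g)) = 0 := ZMod.natCast_self _
  have hA' := congrArg (fun m : ℕ => (m : ZMod (k * g))) hA
  rw [hR, hC, hS]
  push_cast at hz hA' ⊢
  linear_combination (g : ZMod (k * g)) * hA' + (w : ZMod (k * g)) * hz

theorem exists_indivisible {m w : ℕ} (E : Coarse (2 * m) k)
    (hA : ∑ I, E.r false I + ∑ J, E.c J + ∑ S, E.s S = k * w)
    (hB : ∑ I, E.r true I = ∑ I, E.r false I + 1) (g : ℕ) (hg : 1 ≤ g) :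
    ∃ L : Fin (2 * m * g) → Fin (2 * m * g) → Fin (2 * m * g), IsLatin L ∧
      ∃ P, IsIndivisible L (k * g) P := by
  have : NeZero g := ⟨by omega⟩
  have hcard : Fintype.card (Fin (2 * m) × ZMod g) = 2 * m * g := by
    simp [ZMod.card]
  have e : (Fin (2 * m) × ZMod g) ≃ Fin (2 * m * g) := Fintype.equivFinOfCardEq hcard
  refine transport (2 * m * g) e e e (LL E g) (LL_latin E g) (k * g) (PP E g)
    ⟨PP_row E g, PP_col E g, PP_sym E g⟩ (lamR E g) (lamC E g) (lamS E g)
    (fun p hp => PP_zero E g p hp) ?_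
  rw [W_eq E g hA hB]
  simp

theorem kappa_bdd (n : ℕ) (hn : 0 < n) :
    BddAbove {k | 1 ≤ k ∧ ∃ L : Fin n → Fin n → Fin n, IsLatin L ∧ ∃ P, IsIndivisible L k P} := by
  refine ⟨n * n, ?_⟩
  rintro k ⟨-, L, -, P, hP⟩
  rw [← hP.1.1 ⟨0, hn⟩]
  calc _ ≤ P.card := Finset.card_filter_le _ _
    _ ≤ Fintype.card (Fin n × Fin n) := Finset.card_le_univ _
    _ = n * n := by simp

theorem le_kappa {n k : ℕ} (hn : 0 < n) (hk : 1 ≤ k)
    (h : ∃ L : Fin n → Fin n → Fin n, IsLatin L ∧ ∃ P, IsIndivisible L k P) : k ≤ kappa n :=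
  le_csSup (kappa_bdd n hn) ⟨hk, h⟩

end Pool.Agent.V7H52.PX
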