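import Pool.Agent.V7H52.PX.Blow

/-! The coarse data of order 20 with 14-plexes. -/

set_option autoImplicit false

namespace Pool.Agent.V7H52.PX.D20

open Finset

def LA : Fin 20 → Fin 20 → Fin 20 :=
  ![
    ![0, 1, 17, 19, 12, 18, 16, 15, 8, 14, 13, 11, 10, 9, 5, 6, 4, 7, 3, 2],
    ![19, 5, 18, 8, 17, 16, 15, 14, 13, 11, 12, 9, 1, 7, 6, 4, 10, 3, 2, 0],
    ![3, 18, 16, 17, 15, 1, 13, 12, 11, 10, 14, 8, 7, 6, 4, 5, 2, 9, 0, 19],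
    ![16, 17, 15, 3, 13, 14, 11, 4, 10, 8, 9, 5, 6, 12, 7, 2, 0, 1, 19, 18],
    ![17, 16, 2, 15, 14, 13, 12, 10, 18, 9, 8, 7, 5, 19, 3, 11, 1, 0, 6, 4],
    ![10, 15, 13, 14, 0, 12, 5, 8, 9, 7, 17, 6, 4, 3, 11, 1, 19, 2, 18, 16],
    ![13, 14, 11, 12, 10, 15, 8, 9, 7, 5, 6, 4, 3, 2, 1, 0, 18, 19, 16, 17],
    ![14, 13, 12, 11, 2, 10, 9, 7, 1, 6, 5, 16, 8, 4, 0, 19, 3, 18, 17, 15],
    ![11, 12, 19, 10, 8, 9, 0, 6, 5, 4, 7, 3, 14, 1, 2, 18, 17, 16, 15, 13],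
    ![12, 11, 10, 13, 9, 8, 7, 5, 6, 18, 4, 15, 2, 0, 19, 3, 16, 17, 1, 14],
    ![1, 10, 8, 9, 7, 17, 6, 19, 4, 12, 3, 2, 0, 5, 18, 16, 13, 15, 14, 11],
    ![9, 8, 4, 7, 5, 6, 10, 3, 12, 19, 2, 0, 16, 18, 17, 15, 14, 13, 11, 1],
    ![8, 9, 7, 18, 6, 5, 4, 0, 3, 2, 11, 1, 19, 13, 16, 17, 15, 14, 12, 10],
    ![6, 7, 5, 16, 18, 4, 3, 2, 15, 1, 0, 19, 9, 17, 14, 13, 11, 12, 10, 8],
    ![7, 19, 6, 5, 4, 3, 17, 13, 2, 0, 1, 10, 18, 16, 15, 14, 12, 11, 8, 9],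
    ![5, 6, 14, 4, 3, 11, 2, 1, 0, 16, 19, 18, 17, 15, 13, 12, 8, 10, 9, 7],
    ![4, 0, 3, 6, 16, 2, 1, 11, 19, 13, 18, 17, 15, 14, 12, 10, 9, 8, 7, 5],
    ![15, 3, 9, 2, 1, 0, 19, 18, 14, 17, 16, 12, 13, 11, 10, 8, 7, 4, 5, 6],
    ![18, 2, 0, 1, 11, 19, 14, 17, 16, 15, 10, 13, 12, 8, 9, 7, 6, 5, 4, 3],
    ![2, 4, 1, 0, 19, 7, 18, 16, 17, 3, 15, 14, 11, 10, 8, 9, 5, 6, 13, 12]]

def LB : Fin 20 → Fin 20 → Fin 20 :=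
  ![
    ![0, 1, 19, 6, 18, 17, 16, 15, 8, 13, 14, 11, 10, 9, 7, 5, 12, 4, 3, 2],
    ![1, 19, 8, 18, 17, 16, 6, 14, 13, 11, 12, 10, 9, 7, 5, 4, 3, 15, 2, 0],
    ![18, 0, 16, 17, 15, 2, 14, 12, 11, 10, 13, 8, 7, 6, 4, 9, 5, 3, 1, 19],
    ![16, 17, 15, 3, 14, 13, 11, 10, 19, 8, 9, 5, 6, 4, 12, 2, 1, 0, 7, 18],
    ![17, 16, 18, 15, 13, 14, 12, 2, 10, 9, 8, 7, 4, 5, 3, 6, 0, 1, 19, 11],
    ![15, 10, 14, 13, 12, 11, 17, 8, 9, 7, 1, 6, 5, 3, 2, 0, 4, 19, 18, 16],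
    ![14, 13, 12, 11, 10, 15, 8, 9, 7, 6, 5, 4, 3, 16, 0, 19, 18, 2, 17, 1],
    ![13, 14, 11, 12, 0, 10, 9, 7, 4, 5, 6, 17, 8, 2, 1, 3, 19, 18, 16, 15],
    ![12, 11, 10, 19, 8, 9, 13, 6, 5, 4, 7, 3, 2, 0, 18, 1, 17, 16, 15, 14],
    ![11, 12, 2, 10, 9, 8, 7, 5, 6, 3, 4, 19, 14, 1, 15, 18, 16, 17, 0, 13],
    ![10, 18, 9, 8, 16, 7, 5, 4, 14, 0, 3, 2, 1, 19, 6, 17, 15, 11, 13, 12],
    ![9, 8, 7, 16, 5, 6, 1, 18, 3, 2, 10, 0, 19, 11, 17, 15, 13, 14, 12, 4],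
    ![8, 9, 17, 7, 6, 5, 4, 3, 15, 12, 2, 1, 0, 18, 19, 16, 14, 13, 11, 10],
    ![19, 15, 6, 5, 7, 4, 3, 13, 2, 1, 0, 9, 18, 17, 16, 14, 11, 12, 10, 8],
    ![6, 5, 4, 9, 3, 18, 2, 1, 0, 14, 19, 12, 16, 15, 13, 11, 10, 7, 8, 17],
    ![5, 6, 13, 4, 11, 3, 15, 0, 1, 19, 16, 18, 17, 8, 14, 12, 2, 10, 9, 7],
    ![7, 4, 3, 14, 2, 1, 0, 19, 12, 17, 18, 16, 15, 13, 11, 10, 9, 8, 6, 5],
    ![4, 3, 5, 2, 1, 0, 19, 11, 18, 16, 17, 15, 13, 12, 10, 8, 7, 9, 14, 6],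
    ![2, 7, 1, 0, 4, 19, 18, 16, 17, 15, 11, 14, 12, 10, 9, 13, 8, 6, 5, 3],
    ![3, 2, 0, 1, 19, 12, 10, 17, 16, 18, 15, 13, 11, 14, 8, 7, 6, 5, 4, 9]]

/-- the two coarse squares -/
def Lc (b : Bool) : Fin 20 → Fin 20 → Fin 20 := if b then LB else LA

def rA : Fin 20 → ℕ :=
  ![0, 1, 2, 3, 3, 4, 5, 5, 6, 6, 7, 8, 8, 9, 9, 10, 11, 12, 13, 13]

def rB : Fin 20 → ℕ :=
  ![0, 1, 2, 3, 3, 4, 5, 5, 6, 6, 7, 8, 8, 9, 10, 10, 11, 12, 13, 13]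

/-- row labels -/
def rc (b : Bool) : Fin 20 → ℕ := if b then rB else rA

/-- column labels -/
def cl : Fin 20 → ℕ :=
  ![0, 0, 1, 1, 2, 2, 3, 4, 4, 5, 5, 6, 7, 8, 9, 10, 11, 11, 12, 13]

/-- symbol labels -/
def sl : Fin 20 → ℕ :=
  ![0, 0, 1, 2, 3, 4, 4, 5, 6, 6, 7, 8, 8, 9, 9, 10, 11, 11, 12, 13]

def tau (J S : Fin 20) : ℕ := (cl J + sl S + 13) / 14

def pA : Fin 20 → Finset (Fin 20) :=
  ![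
    {0, 1, 3, 5, 7, 9, 10, 11, 12, 13, 15, 16, 18, 19},
    {0, 2, 4, 5, 6, 7, 8, 9, 10, 13, 15, 17, 18, 19},
    {2, 3, 4, 6, 7, 8, 9, 11, 12, 13, 14, 16, 18, 19},
    {0, 1, 2, 4, 5, 6, 8, 9, 10, 12, 15, 17, 18, 19},
    {0, 1, 3, 4, 5, 6, 7, 9, 10, 11, 12, 14, 16, 17},
    {1, 2, 3, 5, 7, 8, 9, 11, 12, 13, 15, 16, 18, 19},
    {0, 1, 2, 3, 4, 6, 8, 9, 11, 12, 13, 14, 16, 18},
    {0, 1, 2, 3, 5, 6, 7, 9, 10, 14, 15, 17, 18, 19},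
    {0, 1, 3, 4, 5, 7, 8, 9, 11, 13, 15, 16, 17, 19},
    {0, 1, 2, 4, 5, 6, 7, 8, 10, 13, 14, 16, 17, 19},
    {1, 2, 3, 4, 6, 8, 10, 11, 12, 14, 15, 17, 18, 19},
    {0, 1, 3, 4, 5, 7, 10, 11, 13, 14, 15, 16, 17, 18},
    {0, 1, 2, 4, 5, 6, 8, 9, 11, 12, 14, 17, 18, 19},
    {1, 2, 5, 6, 7, 9, 10, 11, 13, 15, 16, 17, 18, 19},
    {0, 2, 3, 4, 8, 9, 10, 12, 13, 14, 15, 16, 17, 19},
    {0, 1, 3, 4, 6, 7, 8, 10, 11, 12, 13, 14, 15, 18},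
    {0, 2, 5, 6, 8, 10, 11, 12, 13, 14, 15, 16, 17, 19},
    {1, 3, 4, 5, 6, 7, 9, 10, 12, 13, 14, 15, 16, 18},
    {2, 3, 5, 7, 8, 9, 11, 12, 14, 15, 16, 17, 18, 19},
    {0, 2, 3, 4, 6, 7, 8, 10, 11, 12, 13, 14, 16, 17}]

def pB : Fin 20 → Finset (Fin 20) :=
  ![
    {1, 2, 4, 6, 7, 9, 10, 11, 13, 14, 15, 17, 18, 19},
    {1, 3, 4, 5, 7, 8, 9, 10, 12, 13, 14, 15, 16, 19},
    {0, 2, 3, 4, 6, 7, 8, 9, 11, 12, 13, 14, 18, 19},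
    {0, 1, 2, 4, 5, 6, 9, 10, 12, 13, 15, 16, 17, 19},
    {0, 1, 3, 4, 5, 6, 8, 9, 10, 11, 14, 16, 17, 18},
    {0, 2, 3, 4, 5, 7, 8, 9, 11, 14, 15, 17, 18, 19},
    {0, 2, 3, 4, 6, 8, 9, 10, 11, 12, 14, 15, 16, 18},
    {0, 1, 2, 3, 5, 6, 7, 9, 10, 13, 14, 17, 18, 19},
    {0, 1, 2, 5, 7, 8, 9, 11, 12, 13, 16, 17, 18, 19},
    {0, 1, 3, 4, 5, 6, 7, 8, 10, 13, 15, 16, 17, 19},
    {0, 2, 3, 5, 6, 7, 10, 11, 12, 13, 15, 16, 18, 19},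
    {0, 1, 2, 4, 5, 8, 9, 11, 12, 14, 15, 16, 17, 18},
    {0, 1, 3, 4, 5, 6, 7, 10, 11, 13, 16, 17, 18, 19},
    {2, 3, 5, 6, 8, 9, 10, 12, 13, 15, 16, 17, 18, 19},
    {0, 1, 2, 4, 6, 7, 8, 10, 12, 13, 14, 15, 16, 18},
    {0, 1, 3, 5, 7, 8, 9, 11, 12, 14, 15, 17, 18, 19},
    {1, 2, 4, 6, 7, 10, 11, 12, 13, 14, 15, 16, 17, 19},
    {1, 3, 4, 5, 6, 8, 9, 10, 11, 12, 13, 14, 15, 16},
    {0, 2, 3, 5, 6, 7, 8, 9, 11, 12, 13, 14, 17, 19},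
    {1, 2, 3, 4, 7, 8, 10, 11, 12, 14, 15, 16, 17, 18}]

/-- the columns of the plex in a coarse row -/
def pc (b : Bool) : Fin 20 → Finset (Fin 20) := if b then pB else pA

theorem Lc_row : ∀ (b : Bool) (I J J' : Fin 20), Lc b I J = Lc b I J' → J = J' := by
  decide +kernel

theorem Lc_col : ∀ (b : Bool) (J I I' : Fin 20), Lc b I J = Lc b I' J → I = I' := by
  decide +kernel

theorem zero_coarse : ∀ (b : Bool) (I J : Fin 20), J ∈ pc b I →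
    rc b I + cl J + sl (Lc b I J) = 14 * tau J (Lc b I J) := by decide +kernel

theorem pc_card : ∀ (b : Bool) (I : Fin 20), (pc b I).card = 14 := by decide +kernel

theorem pc_col : ∀ (b : Bool) (J : Fin 20),
    (∑ I : Fin 20, if J ∈ pc b I then 1 else 0) = 14 := by decide +kernel

theorem pc_sym : ∀ (b : Bool) (S : Fin 20),
    (∑ I : Fin 20, ∑ J : Fin 20, if J ∈ pc b I ∧ Lc b I J = S then 1 else 0) = 14 := by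
  decide +kernel

/-- the coarse data -/
def data : Coarse 20 14 where
  L := Lc
  r := rc
  c := cl
  s := sl
  p := pc
  t := tau
  hrow := Lc_row
  hcol := Lc_col
  hzero := zero_coarse
  hcard := pc_card
  hpcol := pc_col
  hpsym := pc_sym

theorem sumA : ∑ I, data.r false I + ∑ J, data.c J + ∑ S, data.s S = 14 * 27 := by decide +kernel

theorem sumB : ∑ I, data.r true I = ∑ I, data.r false I + 1 := by decide +kernel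

end Pool.Agent.V7H52.PX.D20
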