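import Pool.Agent.V7H52.PX.Ext2

/-! Coarse data of order 13 with 8-plexes, for all orders. -/

set_option autoImplicit false

namespace Pool.Agent.V7H52.PX.E13

open Finset

/-- data -/
def L0 : Fin 13 → Fin 13 → Fin 13 :=
  ![
    ![0, 8, 4, 5, 3, 12, 9, 10, 11, 7, 6, 2, 1],
    ![6, 1, 11, 0, 9, 10, 2, 3, 12, 4, 5, 8, 7],
    ![4, 0, 2, 9, 11, 1, 10, 6, 3, 12, 7, 5, 8],
    ![5, 11, 10, 3, 1, 6, 7, 0, 2, 8, 12, 4, 9],
    ![10, 3, 6, 7, 4, 8, 12, 5, 0, 2, 1, 9, 11],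
    ![9, 2, 7, 6, 8, 5, 11, 12, 4, 1, 3, 0, 10],
    ![2, 9, 1, 10, 7, 3, 6, 8, 5, 0, 11, 12, 4],
    ![12, 10, 8, 1, 2, 9, 4, 7, 6, 11, 0, 3, 5],
    ![11, 12, 3, 2, 6, 7, 5, 4, 8, 10, 9, 1, 0],
    ![7, 4, 5, 11, 12, 0, 1, 2, 10, 9, 8, 6, 3],
    ![3, 5, 12, 4, 0, 11, 8, 1, 9, 6, 10, 7, 2],
    ![8, 7, 0, 12, 10, 2, 3, 9, 1, 5, 4, 11, 6],
    ![1, 6, 9, 8, 5, 4, 0, 11, 7, 3, 2, 10, 12]]

/-- data -/
def r0 : Fin 13 → ℕ :=
  ![3, 5, 6, 6, 1, 1, 7, 7, 0, 4, 4, 5, 2]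

/-- data -/
def c0 : Fin 13 → ℕ :=
  ![3, 5, 6, 6, 7, 7, 1, 1, 0, 4, 4, 3, 2]

/-- data -/
def s0 : Fin 13 → ℕ :=
  ![5, 3, 2, 2, 7, 7, 1, 1, 0, 4, 4, 5, 6]

/-- data -/
def p0 : Fin 13 → ℤ :=
  ![1, 1, 1, 1, -1, -1, -1, -1, -1, -1, -1, -1, 1]

/-- data -/
def m0 : Fin 13 → ℤ :=
  ![-1, -1, -1, -1, -1, -1, -1, -1, 1, 1, 1, 1, -1]

/-- data -/
def q0 : Fin 13 → ℤ :=
  ![0, 0, 0, 0, -1, -1, -1, -1, 0, -1, -1, -1, 0]

/-- data -/
def e0 : Fin 13 → ℤ :=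
  ![-1, -1, -1, -1, -3, -3, -3, -3, 0, -2, -2, -2, 0]

/-- data -/
def A0 : Fin 13 → Bool :=
  ![true, true, true, true, false, false, false, false, true, true, true, true, false]

/-- data -/
def B0 : Fin 13 → Bool :=
  ![true, true, true, true, true, true, true, true, false, false, false, false, false]

/-- data -/
def C0 : Fin 13 → Bool :=
  ![false, false, false, false, true, true, true, true, true, true, true, true, false]

/-- data -/
def P0 : Fin 13 → Finset (Fin 13) :=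
  ![
    {3, 5, 6, 7, 8, 9, 10, 11},
    {2, 3, 4, 5, 6, 7, 11, 12},
    {0, 1, 3, 7, 8, 9, 11, 12},
    {0, 1, 2, 4, 6, 8, 10, 11},
    {0, 1, 2, 3, 5, 6, 11, 12},
    {0, 1, 2, 3, 4, 7, 8, 9},
    {1, 2, 5, 7, 9, 10, 11, 12},
    {0, 1, 3, 4, 8, 9, 10, 12},
    {2, 3, 4, 5, 6, 7, 9, 10},
    {0, 1, 5, 6, 8, 10, 11, 12},
    {1, 2, 4, 5, 7, 8, 11, 12},
    {0, 2, 4, 6, 8, 9, 10, 12},
    {0, 3, 4, 5, 6, 7, 9, 10}]

/-- data -/
def U0 : Fin 13 → Finset (Fin 13) :=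
  ![
    {11},
    {11},
    {8},
    {8},
    {2, 3},
    {0, 9},
    {5, 10},
    {1, 10},
    {7},
    {6},
    {4},
    {9},
    ∅]

/-- carries -/
def t0 (J S : Fin 13) : ℕ := (c0 J + s0 S + 7) / 8

/-- the coarse data -/
def data : Ext 13 8 where
  L := L0
  r := r0
  c := c0
  s := s0
  P := P0
  U := U0
  p := p0
  m := m0
  q := q0
  e := e0
  A := A0
  B := B0
  C := C0
  t := t0
  hrow := by decide +kernel
  hcol := by decide +kernel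
  hdiag := by decide +kernel
  hPd := by decide +kernel
  hUP := by decide +kernel
  hp := by decide +kernel
  hm := by decide +kernel
  hzero := by decide +kernel
  hA := by decide +kernel
  hB := by decide +kernel
  hC := by decide +kernel
  hcard := by decide +kernel
  hpcol := by decide +kernel
  hpsym := by decide +kernel
  hucard := by decide +kernel
  hucol := by decide +kernel
  husym := by decide +kernel
  hsA := by decide +kernel
  hsB := by decide +kernel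
  hsC := by decide +kernel

theorem total : ∑ I, data.r I + ∑ J, data.c J + ∑ S, data.s S = 147 := by decide +kernel

end Pool.Agent.V7H52.PX.E13
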