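import Mathlib

set_option autoImplicit false

namespace Pool.Agent.V7H52.PX

open Finset

/-- Sum of the integers from `-h` to `h`. -/
lemma sum_Icc_neg (h : ℕ) : ∑ z ∈ Icc (-(h : ℤ)) h, z = 0 := by
  have := Finset.sum_nbij' (s := Icc (-(h : ℤ)) h) (t := Icc (-(h : ℤ)) h)
    (f := fun z : ℤ => z) (g := fun z : ℤ => -z) (fun z => -z) (fun z => -z)
    (by intro z hz; rw [mem_Icc] at *; omega) (by intro z hz; rw [mem_Icc] at *; omega)
    (by intro z _; simp) (by intro z _; simp) (by intro z _; simp)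
  rw [Finset.sum_neg_distrib] at this
  linarith

lemma card_Icc_neg (h : ℕ) : (Icc (-(h : ℤ)) h).card = 2 * h + 1 := by
  rw [Int.card_Icc]; omega

/-- A set of `r` integers in `[-h, h]`, `2 h + 1 ≤ r + 2`, with sum `1`. -/
lemma exists_set (r : ℕ) (hr : 1 ≤ r) : ∃ (h : ℕ) (S : Finset ℤ), 2 * h + 1 ≤ r + 2 ∧
    S ⊆ Icc (-(h : ℤ)) h ∧ S.card = r ∧ ∑ z ∈ S, z = 1 := by
  rcases Nat.even_or_odd r with he | ho
  · obtain ⟨h, rfl⟩ := he
    have hh : 1 ≤ h := by omega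
    refine ⟨h, (Icc (-(h : ℤ)) h).erase (-1), by omega, erase_subset _ _, ?_, ?_⟩
    · rw [card_erase_of_mem (by rw [mem_Icc]; omega), card_Icc_neg]; omega
    · have := Finset.add_sum_erase (Icc (-(h : ℤ)) h) (fun z => z)
        (show (-1 : ℤ) ∈ Icc (-(h : ℤ)) h by rw [mem_Icc]; omega)
      rw [sum_Icc_neg] at this
      linarith
  · obtain ⟨k, rfl⟩ := ho
    refine ⟨k + 1, ((Icc (-((k + 1 : ℕ) : ℤ)) ((k + 1 : ℕ) : ℤ)).erase (-1)).erase 0, by omega,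
      (erase_subset _ _).trans (erase_subset _ _), ?_, ?_⟩
    · rw [card_erase_of_mem (by rw [mem_erase, mem_Icc]; omega),
        card_erase_of_mem (by rw [mem_Icc]; omega), card_Icc_neg]; omega
    · have h1 := Finset.add_sum_erase (Icc (-((k + 1 : ℕ) : ℤ)) ((k + 1 : ℕ) : ℤ)) (fun z => z)
        (show (-1 : ℤ) ∈ Icc (-((k + 1 : ℕ) : ℤ)) ((k + 1 : ℕ) : ℤ) by rw [mem_Icc]; omega)
      have h2 := Finset.add_sum_erase
        ((Icc (-((k + 1 : ℕ) : ℤ)) ((k + 1 : ℕ) : ℤ)).erase (-1)) (fun z => z)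
        (show (0 : ℤ) ∈ (Icc (-((k + 1 : ℕ) : ℤ)) ((k + 1 : ℕ) : ℤ)).erase (-1) by
          rw [mem_erase, mem_Icc]; omega)
      rw [sum_Icc_neg] at h1
      linarith

theorem exists_x (g r : ℕ) (hr : 1 ≤ r) (h : r + 2 ≤ g) :
    ∃ x : Fin r → ZMod g, Function.Injective x ∧ ∑ t, x t = 1 := by
  obtain ⟨k, S, hk, hS, hc, hs⟩ := exists_set r hr
  let e : Fin r ≃ S := (Finset.equivFinOfCardEq hc).symm
  refine ⟨fun t => ((e t : ℤ) : ZMod g), ?_, ?_⟩
  · intro a b hab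
    have h1 : ((e a : ℤ) : ZMod g) = ((e b : ℤ) : ZMod g) := hab
    rw [ZMod.intCast_eq_intCast_iff_dvd_sub] at h1
    have ha := mem_Icc.mp (hS (e a).2)
    have hb := mem_Icc.mp (hS (e b).2)
    have h2 : ((e b : ℤ) - (e a : ℤ)) = 0 := by
      apply Int.eq_zero_of_abs_lt_dvd h1
      rw [abs_lt]
      constructor <;> omega
    apply e.injective
    apply Subtype.ext
    linarith
  · have h3 : ∑ t, ((e t : ℤ) : ZMod g) = ∑ s : S, ((s : ℤ) : ZMod g) :=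
      Equiv.sum_comp e (fun s : S => ((s : ℤ) : ZMod g))
    have h4 : ∑ s : S, ((s : ℤ) : ZMod g) = ∑ z ∈ S, (z : ZMod g) :=
      Finset.sum_coe_sort S (fun z : ℤ => (z : ZMod g))
    calc ∑ t, ((e t : ℤ) : ZMod g) = ∑ z ∈ S, (z : ZMod g) := h3.trans h4
      _ = ((∑ z ∈ S, z : ℤ) : ZMod g) := (Int.cast_sum S _).symm
      _ = 1 := by rw [hs, Int.cast_one]

end Pool.Agent.V7H52.PX
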