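import Pool.Agent.V7H52.PX.ProlPlex

/-!
# The blow-up of order `n g + r`

Coarse data: a Latin square of order `n` with `L m m = m`, a `k`-plex of zero-sum cells away from the
diagonal, labels, three sets of diagonal cells and a part `U` of the plex.
-/

set_option autoImplicit false

namespace Pool.Agent.V7H52.PX

open Finset

/-- coarse data for all orders -/
structure Ext (n k : ℕ) where
  /-- the coarse square -/
  L : Fin n → Fin n → Fin n
  /-- row labels -/
  r : Fin n → ℕ
  /-- column labels -/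
  c : Fin n → ℕ
  /-- symbol labels -/
  s : Fin n → ℕ
  /-- the columns of the plex in a coarse row -/
  P : Fin n → Finset (Fin n)
  /-- the thinned part of the plex -/
  U : Fin n → Finset (Fin n)
  /-- slopes of the transversals -/
  p : Fin n → ℤ
  /-- slopes of the symbols on the transversals -/
  m : Fin n → ℤ
  /-- offsets of the transversals -/
  q : Fin n → ℤ
  /-- offsets of the squares -/
  e : Fin n → ℤ
  /-- diagonal cells used with a new row -/
  A : Fin n → Bool
  /-- diagonal cells used with a new column -/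
  B : Fin n → Bool
  /-- diagonal cells used with a new symbol -/
  C : Fin n → Bool
  /-- the carries -/
  t : Fin n → Fin n → ℕ
  hrow : ∀ I J J' : Fin n, L I J = L I J' → J = J'
  hcol : ∀ J I I' : Fin n, L I J = L I' J → I = I'
  hdiag : ∀ I, L I I = I
  hPd : ∀ I, I ∉ P I
  hUP : ∀ I, U I ⊆ P I
  hp : ∀ I, p I = 1 ∨ p I = -1
  hm : ∀ I, m I = 1 ∨ m I = -1
  hzero : ∀ I J : Fin n, J ∈ P I → r I + c J + s (L I J) = k * t J (L I J)
  hA : ∀ I, A I = true → (c I : ℤ) + s I = k * (q I - e I) ∧ m I = - p I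
  hB : ∀ I, B I = true → (r I : ℤ) + s I = k * (2 * q I - e I) ∧ m I = -1
  hC : ∀ I, C I = true → (r I : ℤ) + c I = k * (- q I) ∧ p I = -1
  hcard : ∀ I : Fin n, (P I).card = k
  hpcol : ∀ J : Fin n, (∑ I : Fin n, if J ∈ P I then 1 else 0) = k
  hpsym : ∀ S : Fin n,
    (∑ I : Fin n, ∑ J : Fin n, if J ∈ P I ∧ L I J = S then 1 else 0) = k
  hucard : ∀ I : Fin n, (U I).card = (B I).toNat + (C I).toNat
  hucol : ∀ J : Fin n, (∑ I : Fin n, if J ∈ U I then 1 else 0) = (A J).toNat + (C J).toNat
  husym : ∀ S : Fin n, (∑ I : Fin n, ∑ J : Fin n, if J ∈ U I ∧ L I J = S then 1 else 0) =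
    (A S).toNat + (B S).toNat
  hsA : ∑ I : Fin n, (A I).toNat = k
  hsB : ∑ I : Fin n, (B I).toNat = k
  hsC : ∑ I : Fin n, (C I).toNat = k

variable {n k : ℕ} (E : Ext n k)

/-- the fine square before the prolongation -/
def Ext.M (g : ℕ) (x y : Fin n × ZMod g) : Fin n × ZMod g :=
  if x.1 = y.1 then (x.1, ((E.m x.1 + 2 * E.p x.1 : ℤ) : ZMod g) * x.2 - 2 * y.2 +
    ((E.e x.1 : ℤ) : ZMod g))
  else (E.L x.1 y.1, -x.2 - y.2 - ((E.t y.1 (E.L x.1 y.1) : ℕ) : ZMod g))

theorem unit_two {g : ℕ} (h : g.Coprime 6) : IsUnit (2 : ZMod g) := by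
  have := (ZMod.isUnit_iff_coprime 2 g).2 (Nat.Coprime.coprime_dvd_left (by norm_num) h.symm)
  exact_mod_cast this

theorem unit_three {g : ℕ} (h : g.Coprime 6) : IsUnit (3 : ZMod g) := by
  have := (ZMod.isUnit_iff_coprime 3 g).2 (Nat.Coprime.coprime_dvd_left (by norm_num) h.symm)
  exact_mod_cast this

theorem Ext.unit_slope {g : ℕ} (h : g.Coprime 6) (I : Fin n) :
    IsUnit ((E.m I + 2 * E.p I : ℤ) : ZMod g) := by
  rcases E.hp I with hp | hp <;> rcases E.hm I with hm | hm <;> rw [hp, hm] <;> norm_num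
  · exact unit_three h
  · exact unit_three h

theorem Ext.M_latin {g : ℕ} [NeZero g] (h : g.Coprime 6) : IsLatin (E.M g) := by
  refine ⟨fun x => Finite.injective_iff_bijective.mp ?_,
    fun y => Finite.injective_iff_bijective.mp ?_⟩
  · obtain ⟨I, i⟩ := x
    rintro ⟨J, j⟩ ⟨J', j'⟩ hh
    simp only [Ext.M] at hh
    split_ifs at hh with h1 h2 h2
    · subst h1
      subst h2
      have e2 := congrArg Prod.snd hh
      simp only at e2
      have e3 : (2 : ZMod g) * j = 2 * j' := by linear_combination -e2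
      rw [(unit_two h).mul_left_cancel e3]
    · exfalso
      have e1 := congrArg Prod.fst hh
      simp only at e1
      apply h2
      have := E.hrow I I J' ((E.hdiag I).trans e1)
      exact this
    · exfalso
      have e1 := congrArg Prod.fst hh
      simp only at e1
      apply h1
      have := E.hrow I I J ((E.hdiag I).trans e1.symm)
      exact this
    · have e1 := congrArg Prod.fst hh
      have e2 := congrArg Prod.snd hh
      simp only at e1 e2
      have hJ := E.hrow _ _ _ e1
      subst hJ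
      have e3 : j = j' := by linear_combination -e2
      rw [e3]
  · obtain ⟨J, j⟩ := y
    rintro ⟨I, i⟩ ⟨I', i'⟩ hh
    simp only [Ext.M] at hh
    split_ifs at hh with h1 h2 h2
    · subst h1
      subst h2
      have e2 := congrArg Prod.snd hh
      simp only at e2
      have e3 : ((E.m I' + 2 * E.p I' : ℤ) : ZMod g) * i =
        ((E.m I' + 2 * E.p I' : ℤ) : ZMod g) * i' := by linear_combination e2
      rw [(E.unit_slope h I').mul_left_cancel e3]
    · exfalso
      have e1 := congrArg Prod.fst hh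
      simp only at e1
      subst h1
      apply h2
      exact (E.hcol I I I' ((E.hdiag I).trans e1)).symm
    · exfalso
      have e1 := congrArg Prod.fst hh
      simp only at e1
      subst h2
      apply h1
      exact (E.hcol I' I' I ((E.hdiag I').trans e1.symm)).symm
    · have e1 := congrArg Prod.fst hh
      have e2 := congrArg Prod.snd hh
      simp only at e1 e2
      have hI := E.hcol _ _ _ e1
      subst hI
      have e3 : i = i' := by linear_combination -e2
      rw [e3]

theorem sq_one_p {g : ℕ} (I : Fin n) : ((E.p I : ℤ) : ZMod g) * ((E.p I : ℤ) : ZMod g) = 1 := by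
  rcases E.hp I with hp | hp <;> rw [hp] <;> push_cast <;> ring

theorem sq_one_m {g : ℕ} (I : Fin n) : ((E.m I : ℤ) : ZMod g) * ((E.m I : ℤ) : ZMod g) = 1 := by
  rcases E.hm I with hp | hp <;> rw [hp] <;> push_cast <;> ring

/-- the transversals -/
def Ext.trans (g : ℕ) {ρ : ℕ} (x : Fin ρ → ZMod g) (hx : Function.Injective x) :
    Trans (E.M g) ρ where
  cT t :=
    { toFun := fun y => (y.1, ((E.p y.1 : ℤ) : ZMod g) * y.2 + x t + ((E.q y.1 : ℤ) : ZMod g))
      invFun := fun y => (y.1, ((E.p y.1 : ℤ) : ZMod g) * (y.2 - x t - ((E.q y.1 : ℤ) : ZMod g)))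
      left_inv := fun y => Prod.ext rfl (by
        have := sq_one_p E (g := g) y.1
        simp only
        linear_combination y.2 * this)
      right_inv := fun y => Prod.ext rfl (by
        have := sq_one_p E (g := g) y.1
        simp only
        linear_combination (y.2 - x t - ((E.q y.1 : ℤ) : ZMod g)) * this) }
  sT t :=
    { toFun := fun y => (y.1, ((E.m y.1 : ℤ) : ZMod g) * y.2 - 2 * x t -
        2 * ((E.q y.1 : ℤ) : ZMod g) + ((E.e y.1 : ℤ) : ZMod g))
      invFun := fun y => (y.1, ((E.m y.1 : ℤ) : ZMod g) * (y.2 + 2 * x t +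
        2 * ((E.q y.1 : ℤ) : ZMod g) - ((E.e y.1 : ℤ) : ZMod g)))
      left_inv := fun y => Prod.ext rfl (by
        have := sq_one_m E (g := g) y.1
        simp only
        linear_combination y.2 * this)
      right_inv := fun y => Prod.ext rfl (by
        have := sq_one_m E (g := g) y.1
        simp only
        linear_combination (y.2 + 2 * x t +
        2 * ((E.q y.1 : ℤ) : ZMod g) - ((E.e y.1 : ℤ) : ZMod g)) * this) }
  hM t y := by
    obtain ⟨I, i⟩ := y
    simp only [Ext.M, Equiv.coe_fn_mk, if_true]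
    refine Prod.ext rfl ?_
    simp only
    push_cast
    ring
  hd y t u h := by
    apply hx
    have := congrArg Prod.snd h
    simp only [Equiv.coe_fn_mk] at this
    linear_combination this

/-! ### counting in a block -/

theorem cnt_row {g : ℕ} [NeZero g] (D : Finset (ZMod g)) (i : ZMod g) :
    ∑ j : ZMod g, (if j - i ∈ D then 1 else 0) = D.card := by
  rw [← Equiv.sum_comp (Equiv.addRight i)]
  simp

theorem cnt_col {g : ℕ} [NeZero g] (D : Finset (ZMod g)) (j : ZMod g) :
    ∑ i : ZMod g, (if j - i ∈ D then 1 else 0) = D.card := by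
  rw [← Equiv.sum_comp (Equiv.subLeft j)]
  simp

theorem cnt_sym {g : ℕ} [NeZero g] (v s : ZMod g) :
    ∑ i : ZMod g, ∑ j : ZMod g, (if -i - j - v = s then 1 else 0) = g := by
  have h : ∀ i : ZMod g, ∑ j : ZMod g, (if -i - j - v = s then 1 else 0) = 1 := by
    intro i
    rw [Finset.sum_eq_single (-i - v - s)]
    · rw [if_pos]
      ring
    · intro j _ hj
      rw [if_neg]
      intro h
      apply hj
      rw [← h]
      ring
    · intro h
      exact absurd (Finset.mem_univ _) h
  rw [Finset.sum_congr rfl fun i _ => h i]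
  simp [ZMod.card]

theorem cnt_symD {g : ℕ} [NeZero g] (h2 : g.Coprime 6) (D : Finset (ZMod g)) (v s : ZMod g) :
    ∑ i : ZMod g, ∑ j : ZMod g, (if -i - j - v = s ∧ j - i ∈ D then 1 else 0) = D.card := by
  have h : ∀ i : ZMod g, ∑ j : ZMod g, (if -i - j - v = s ∧ j - i ∈ D then 1 else 0) =
      if (-v - s) - 2 * i ∈ D then 1 else 0 := by
    intro i
    rw [Finset.sum_eq_single (-i - v - s)]
    · have e1 : -i - (-i - v - s) - v = s := by ring
      have e2 : -i - v - s - i = (-v - s) - 2 * i := by ring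
      simp [e1, e2]
    · intro j _ hj
      rw [if_neg]
      rintro ⟨h, -⟩
      apply hj
      rw [← h]
      ring
    · intro h
      exact absurd (Finset.mem_univ _) h
  rw [Finset.sum_congr rfl fun i _ => h i]
  have hinj : Function.Injective fun i : ZMod g => (-v - s) - 2 * i := by
    intro a b hab
    simp only at hab
    exact (unit_two h2).mul_left_cancel (by linear_combination -hab)
  have hb := Finite.injective_iff_bijective.mp hinj
  rw [← Equiv.sum_comp (Equiv.ofBijective _ hb).symm]
  have : ∀ y : ZMod g, (-v - s) - 2 * ((Equiv.ofBijective _ hb).symm y) = y := fun y =>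
    (Equiv.ofBijective _ hb).apply_symm_apply y
  rw [Finset.sum_congr rfl fun y _ => by rw [this y]]
  simp

/-- the plex in the blocks -/
def Ext.Pf (g : ℕ) (D : Finset (ZMod g)) (x y : Fin n × ZMod g) : Bool :=
  decide (y.1 ∈ E.P x.1 ∧ ¬ (y.1 ∈ E.U x.1 ∧ y.2 - x.2 ∈ D))

theorem Ext.split (g : ℕ) (D : Finset (ZMod g)) (I J : Fin n) (i j : ZMod g) :
    (E.Pf g D (I, i) (J, j)).toNat + (if J ∈ E.U I then 1 else 0) * (if j - i ∈ D then 1 else 0) =
      if J ∈ E.P I then 1 else 0 := by
  have h := E.hUP I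
  simp only [Ext.Pf]
  by_cases h1 : J ∈ E.P I
  · by_cases h2 : J ∈ E.U I
    · by_cases h3 : j - i ∈ D <;> simp [h1, h2, h3]
    · simp [h1, h2]
  · have h2 : J ∉ E.U I := fun hh => h1 (h hh)
    simp [h1, h2]

theorem Ext.row_count (g : ℕ) [NeZero g] (D : Finset (ZMod g)) (x : Fin n × ZMod g) :
    ∑ y, (E.Pf g D x y).toNat + D.card * (E.B x.1).toNat + D.card * (E.C x.1).toNat = k * g := by
  obtain ⟨I, i⟩ := x
  rw [Fintype.sum_prod_type]
  have h1 : ∑ J, ∑ j, ((E.Pf g D (I, i) (J, j)).toNat +
      (if J ∈ E.U I then 1 else 0) * (if j - i ∈ D then 1 else 0)) = k * g := by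
    simp only [E.split]
    simp only [Finset.sum_const, Finset.card_univ, ZMod.card, smul_eq_mul]
    rw [← Finset.mul_sum, Finset.sum_ite_mem, Finset.univ_inter, Finset.sum_const, smul_eq_mul,
      mul_one, E.hcard, mul_comm]
  simp only [Finset.sum_add_distrib, ← Finset.mul_sum, cnt_row] at h1
  rw [← Finset.sum_mul, Finset.sum_ite_mem, Finset.univ_inter, Finset.sum_const, smul_eq_mul,
    mul_one, E.hucard] at h1
  simp only
  linarith

theorem Ext.col_count (g : ℕ) [NeZero g] (D : Finset (ZMod g)) (y : Fin n × ZMod g) :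
    ∑ x, (E.Pf g D x y).toNat + D.card * (E.A y.1).toNat + D.card * (E.C y.1).toNat = k * g := by
  obtain ⟨J, j⟩ := y
  rw [Fintype.sum_prod_type]
  have h1 : ∑ I, ∑ i, ((E.Pf g D (I, i) (J, j)).toNat +
      (if J ∈ E.U I then 1 else 0) * (if j - i ∈ D then 1 else 0)) = k * g := by
    simp only [E.split]
    simp only [Finset.sum_const, Finset.card_univ, ZMod.card, smul_eq_mul]
    rw [← Finset.mul_sum, E.hpcol, mul_comm]
  simp only [Finset.sum_add_distrib, ← Finset.mul_sum, cnt_col] at h1
  rw [← Finset.sum_mul, E.hucol] at h1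
  simp only
  linarith

end Pool.Agent.V7H52.PX
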