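import Pool.Agent.V7H52.PX.Ext
import Pool.Agent.V7H52.PX.ExX

/-!
# The blow-up of order `n g + ρ`: symbols, labels, the theorem
-/

set_option autoImplicit false

namespace Pool.Agent.V7H52.PX

open Finset

variable {n k : ℕ} (E : Ext n k)

theorem Ext.split_sym (g : ℕ) (D : Finset (ZMod g)) (I J S : Fin n) (i j s : ZMod g) :
    (if E.Pf g D (I, i) (J, j) = true ∧ E.M g (I, i) (J, j) = (S, s) then 1 else 0) +
      (if J ∈ E.U I ∧ E.L I J = S then 1 else 0) *
        (if -i - j - ((E.t J (E.L I J) : ℕ) : ZMod g) = s ∧ j - i ∈ D then 1 else 0) =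
      (if J ∈ E.P I ∧ E.L I J = S then 1 else 0) *
        (if -i - j - ((E.t J (E.L I J) : ℕ) : ZMod g) = s then 1 else 0) := by
  have h := E.hUP I
  by_cases h1 : J ∈ E.P I
  · have hIJ : I ≠ J := by
      rintro rfl
      exact E.hPd _ h1
    have hM : E.M g (I, i) (J, j) = (E.L I J, -i - j - ((E.t J (E.L I J) : ℕ) : ZMod g)) := by
      simp [Ext.M, hIJ]
    simp only [hM, Prod.mk.injEq, Ext.Pf, decide_eq_true_eq]
    by_cases h2 : J ∈ E.U I
    · by_cases h3 : j - i ∈ D
      · by_cases h4 : E.L I J = S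
        · by_cases h5 : -i - j - ((E.t J (E.L I J) : ℕ) : ZMod g) = s
          · simp [h1, h2, h3, h5]
          · simp [h5]
        · simp [h4]
      · by_cases h4 : E.L I J = S
        · by_cases h5 : -i - j - ((E.t J (E.L I J) : ℕ) : ZMod g) = s
          · simp [h1, h3, h4, h5]
          · simp [h5]
        · simp [h4]
    · by_cases h4 : E.L I J = S
      · by_cases h5 : -i - j - ((E.t J (E.L I J) : ℕ) : ZMod g) = s
        · simp [h1, h2, h4, h5]
        · simp [h5]
      · simp [h4]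
  · have h2 : J ∉ E.U I := fun hh => h1 (h hh)
    simp [h1, h2, Ext.Pf]

theorem Ext.sym_count (g : ℕ) [NeZero g] (hg : g.Coprime 6) (D : Finset (ZMod g))
    (z : Fin n × ZMod g) :
    ∑ x, ∑ y, (if E.Pf g D x y = true ∧ E.M g x y = z then 1 else 0) +
      D.card * (E.A z.1).toNat + D.card * (E.B z.1).toNat = k * g := by
  obtain ⟨S, s⟩ := z
  have h0 : ∀ F : (Fin n × ZMod g) → (Fin n × ZMod g) → ℕ,
      ∑ x, ∑ y, F x y = ∑ I, ∑ J, ∑ i, ∑ j, F (I, i) (J, j) := by
    intro F
    rw [Fintype.sum_prod_type]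
    refine Finset.sum_congr rfl fun I _ => ?_
    rw [Finset.sum_comm]
    simp only [Fintype.sum_prod_type]
    refine Finset.sum_congr rfl fun J _ => ?_
    rw [Finset.sum_comm]
  have h1 : ∑ I, ∑ J, ∑ i : ZMod g, ∑ j : ZMod g,
      ((if E.Pf g D (I, i) (J, j) = true ∧ E.M g (I, i) (J, j) = (S, s) then 1 else 0) +
      (if J ∈ E.U I ∧ E.L I J = S then 1 else 0) *
        (if -i - j - ((E.t J (E.L I J) : ℕ) : ZMod g) = s ∧ j - i ∈ D then 1 else 0)) =
      k * g := by
    simp only [E.split_sym]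
    simp only [← Finset.mul_sum, cnt_sym]
    simp only [← Finset.sum_mul]
    rw [E.hpsym]
  simp only [Finset.sum_add_distrib, ← Finset.mul_sum, cnt_symD hg] at h1
  simp only [← Finset.sum_mul] at h1
  rw [E.husym] at h1
  rw [h0]
  simp only
  linarith

/-- the plex data -/
noncomputable def Ext.plexData (g : ℕ) [NeZero g] (hg : g.Coprime 6) {ρ : ℕ} (x : Fin ρ → ZMod g)
    (hx : Function.Injective x) : PlexData (E.trans g x hx) (k * g) where
  P := E.Pf g (Finset.univ.map ⟨x, hx⟩)
  A y := E.A y.1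
  B y := E.B y.1
  C y := E.C y.1
  hPu := by
    rintro ⟨I, i⟩ ⟨J, j⟩ h t ht
    simp only [Ext.Pf, decide_eq_true_eq] at h
    have h2 : I = J := congrArg Prod.fst ht
    subst h2
    exact E.hPd _ h.1
  hAs _ _ := rfl
  hBs _ _ := rfl
  hCc _ _ := rfl
  hrow y := by
    have := E.row_count g (Finset.univ.map ⟨x, hx⟩) y
    simpa using this
  hcol y := by
    have := E.col_count g (Finset.univ.map ⟨x, hx⟩) y
    simpa using this
  hsym z := by
    have := E.sym_count g hg (Finset.univ.map ⟨x, hx⟩) z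
    simpa using this
  hA := by
    rw [Fintype.sum_prod_type]
    simp only [Finset.sum_const, Finset.card_univ, ZMod.card, smul_eq_mul]
    rw [← Finset.mul_sum, E.hsA, mul_comm]
  hB := by
    rw [Fintype.sum_prod_type]
    simp only [Finset.sum_const, Finset.card_univ, ZMod.card, smul_eq_mul]
    rw [← Finset.mul_sum, E.hsB, mul_comm]
  hC := by
    rw [Fintype.sum_prod_type]
    simp only [Finset.sum_const, Finset.card_univ, ZMod.card, smul_eq_mul]
    rw [← Finset.mul_sum, E.hsC, mul_comm]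

theorem phi_intCast (k g : ℕ) [NeZero g] (z : ℤ) :
    phi k g (z : ZMod g) = (k : ZMod (k * g)) * (z : ZMod (k * g)) := by
  have h1 := phi_natCast k g 1
  rw [Nat.cast_one, Nat.cast_one, mul_one] at h1
  have h2 : (z : ZMod g) = z • (1 : ZMod g) := by simp
  rw [h2, map_zsmul, h1, zsmul_eq_mul]
  ring

theorem phi_sum_zero (k g : ℕ) [NeZero g] (hg : g.Coprime 6) : ∑ x : ZMod g, phi k g x = 0 := by
  rw [← map_sum]
  have h : ∑ x : ZMod g, x = ∑ x : ZMod g, -x :=
    (Equiv.sum_comp (Equiv.neg (ZMod g)) (fun x => x)).symm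
  rw [Finset.sum_neg_distrib] at h
  have h2 : (2 : ZMod g) * ∑ x : ZMod g, x = 2 * 0 := by linear_combination h
  rw [(unit_two hg).mul_left_cancel h2, map_zero]

theorem Ext.exists_indivisible {w : ℕ} (hw : ∑ I, E.r I + ∑ J, E.c J + ∑ S, E.s S = w)
    (hwk : w.Coprime k) (g : ℕ) (hg : g.Coprime 6) (hgk : g.Coprime k) (ρ : ℕ) (h1 : 1 ≤ ρ)
    (h2 : ρ + 2 ≤ g) :
    ∃ L : Fin (n * g + ρ) → Fin (n * g + ρ) → Fin (n * g + ρ), IsLatin L ∧
      ∃ P, IsIndivisible L (k * g) P := by
  have : NeZero g := ⟨by omega⟩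
  have : NeZero ρ := ⟨by omega⟩
  obtain ⟨x, hx, hx1⟩ := exists_x g ρ h1 h2
  have hcard : Fintype.card ((Fin n × ZMod g) ⊕ Fin ρ) = n * g + ρ := by
    simp [ZMod.card]
  have e : ((Fin n × ZMod g) ⊕ Fin ρ) ≃ Fin (n * g + ρ) := Fintype.equivFinOfCardEq hcard
  let T := E.trans g x hx
  let D := E.plexData g hg x hx
  let a : Fin n × ZMod g → ZMod (k * g) := fun y => (E.r y.1 : ZMod (k * g)) + phi k g y.2
  let b : Fin n × ZMod g → ZMod (k * g) := fun y => (E.c y.1 : ZMod (k * g)) + phi k g y.2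
  let c : Fin n × ZMod g → ZMod (k * g) := fun y => (E.s y.1 : ZMod (k * g)) + phi k g y.2
  let a' : Fin ρ → ZMod (k * g) := fun t => phi k g (x t)
  let b' : Fin ρ → ZMod (k * g) := fun t => phi k g (2 * x t)
  let c' : Fin ρ → ZMod (k * g) := fun t => phi k g (- x t)
  have hz : ∀ p ∈ D.S, Sum.elim a a' p.1 + Sum.elim b b' p.2 +
      Sum.elim c c' (T.prol p.1 p.2) = 0 := by
    apply D.zero
    · rintro ⟨I, i⟩ ⟨J, j⟩ h
      have hJ : J ∈ E.P I := by
        have h' : E.Pf g (Finset.univ.map ⟨x, hx⟩) (I, i) (J, j) = true := h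
        simp only [Ext.Pf, decide_eq_true_eq] at h'
        exact h'.1
      have hIJ : I ≠ J := by
        rintro rfl
        exact E.hPd _ hJ
      have hM : E.M g (I, i) (J, j) = (E.L I J, -i - j - ((E.t J (E.L I J) : ℕ) : ZMod g)) := by
        simp [Ext.M, hIJ]
      have hz := congrArg (fun m : ℕ => (m : ZMod (k * g))) (E.hzero I J hJ)
      simp only [Nat.cast_add, Nat.cast_mul] at hz
      simp only [a, b, c, hM, map_sub, map_neg, phi_natCast]
      linear_combination hz
    · rintro t ⟨I, i⟩ h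
      obtain ⟨h3, h4⟩ := E.hA I h
      have h5 := congrArg (fun m : ℤ => (m : ZMod (k * g))) h3
      simp only [Int.cast_add, Int.cast_mul, Int.cast_natCast] at h5
      have h6 : phi k g (x t) + phi k g (((E.p I : ℤ) : ZMod g) * i + x t +
          ((E.q I : ℤ) : ZMod g)) + phi k g (((E.m I : ℤ) : ZMod g) * i - 2 * x t -
          2 * ((E.q I : ℤ) : ZMod g) + ((E.e I : ℤ) : ZMod g)) =
          -(k * ((E.q I - E.e I : ℤ) : ZMod (k * g))) := by
        rw [← phi_intCast, ← map_neg, ← map_add, ← map_add, h4]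
        congr 1
        push_cast
        ring
      simp only [a', b, c, Ext.trans, Equiv.coe_fn_mk]
      linear_combination h5 + h6
    · rintro t ⟨I, i⟩ h
      obtain ⟨h3, h4⟩ := E.hB I h
      have h5 := congrArg (fun m : ℤ => (m : ZMod (k * g))) h3
      simp only [Int.cast_add, Int.cast_mul, Int.cast_natCast] at h5
      have h6 : phi k g i + phi k g (2 * x t) + phi k g (((E.m I : ℤ) : ZMod g) * i - 2 * x t -
          2 * ((E.q I : ℤ) : ZMod g) + ((E.e I : ℤ) : ZMod g)) =
          -(k * ((2 * E.q I - E.e I : ℤ) : ZMod (k * g))) := by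
        rw [← phi_intCast, ← map_neg, ← map_add, ← map_add, h4]
        congr 1
        push_cast
        ring
      simp only [a, b', c, Ext.trans, Equiv.coe_fn_mk]
      linear_combination h5 + h6
    · rintro t ⟨I, i⟩ h
      obtain ⟨h3, h4⟩ := E.hC I h
      have h5 := congrArg (fun m : ℤ => (m : ZMod (k * g))) h3
      simp only [Int.cast_add, Int.cast_mul, Int.cast_natCast] at h5
      have h6 : phi k g i + phi k g (((E.p I : ℤ) : ZMod g) * i + x t +
          ((E.q I : ℤ) : ZMod g)) + phi k g (- x t) =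
          -(k * ((- E.q I : ℤ) : ZMod (k * g))) := by
        rw [← phi_intCast, ← map_neg, ← map_add, ← map_add, h4]
        congr 1
        push_cast
        ring
      simp only [a, b, c', Ext.trans, Equiv.coe_fn_mk]
      linear_combination h5 + h6
  refine transport (n * g + ρ) e e e T.prol (T.prol_latin (E.M_latin hg)) (k * g) D.S D.isPlex
    (Sum.elim a a') (Sum.elim b b') (Sum.elim c c') hz ?_
  have hs : ∀ f : Fin n → ℕ, ∑ y : Fin n × ZMod g, ((f y.1 : ZMod (k * g)) + phi k g y.2) =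
      ((g * ∑ I, f I : ℕ) : ZMod (k * g)) := by
    intro f
    rw [Fintype.sum_prod_type]
    simp only [Finset.sum_add_distrib, Finset.sum_const, Finset.card_univ, ZMod.card,
      nsmul_eq_mul, phi_sum_zero k g hg, mul_zero, add_zero]
    rw [← Finset.mul_sum]
    push_cast
    rfl
  have ha := hs E.r
  have hb := hs E.c
  have hc := hs E.s
  have hp : ∑ t, a' t + ∑ t, b' t + ∑ t, c' t = ((2 * k : ℕ) : ZMod (k * g)) := by
    simp only [a', b', c']
    rw [← Finset.sum_add_distrib, ← Finset.sum_add_distrib]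
    have h3 : ∀ t, phi k g (x t) + phi k g (2 * x t) + phi k g (-x t) = phi k g (2 * x t) := by
      intro t
      rw [← map_add, ← map_add]
      congr 1
      ring
    rw [Finset.sum_congr rfl fun t _ => h3 t, ← map_sum, ← Finset.mul_sum, hx1, mul_one]
    have h4 := phi_natCast k g 2
    push_cast at h4 ⊢
    rw [h4]
    ring
  have hW : ∑ y, Sum.elim a a' y + ∑ y, Sum.elim b b' y + ∑ y, Sum.elim c c' y =
      ((g * w + 2 * k : ℕ) : ZMod (k * g)) := by
    simp only [Fintype.sum_sum_type, Sum.elim_inl, Sum.elim_inr]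
    have ha' : ∑ y, a y = ((g * ∑ I, E.r I : ℕ) : ZMod (k * g)) := ha
    have hb' : ∑ y, b y = ((g * ∑ I, E.c I : ℕ) : ZMod (k * g)) := hb
    have hc' : ∑ y, c y = ((g * ∑ I, E.s I : ℕ) : ZMod (k * g)) := hc
    rw [ha', hb', hc', ← hw]
    push_cast at hp ⊢
    linear_combination hp
  rw [hW, ZMod.isUnit_iff_coprime]
  apply Nat.Coprime.mul_right
  · have : (g * w).Coprime k := Nat.Coprime.mul_left hgk hwk
    simpa using this
  · have h4 : (2 * k).Coprime g :=
      Nat.Coprime.mul_left (Nat.Coprime.coprime_dvd_left (by norm_num) hg.symm) hgk.symm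
    rw [add_comm]
    simpa using h4

end Pool.Agent.V7H52.PX
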