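import Pool.Agent.V7H52.PX.Blow

/-!
# Prolongation of a Latin square along disjoint transversals, with a plex

A Latin square `M` on a finite set `α` with `r` disjoint transversals is prolonged to a Latin square
of order `|α| + r`. A cell `(i, j)` of the transversal `t` is replaced by the three cells
`(i, new t)`, `(new t, j)` and `(i, j)` with the symbol `new t`. The plex contains the cells of the
first kind with `B i`, of the second kind with `A i` and of the third kind with `C i`.
-/

set_option autoImplicit false

namespace Pool.Agent.V7H52.PX

open Finset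

/-- `r` disjoint transversals of `M` -/
structure Trans {α : Type} (M : α → α → α) (r : ℕ) where
  /-- the column of the transversal `t` in a row -/
  cT : Fin r → α ≃ α
  /-- the symbol of the transversal `t` in a row -/
  sT : Fin r → α ≃ α
  hM : ∀ t i, M i (cT t i) = sT t i
  hd : ∀ i t u, cT t i = cT u i → t = u

variable {α : Type} [Fintype α] [DecidableEq α] {r : ℕ} {M : α → α → α} (T : Trans M r)

/-- the prolonged Latin square -/
noncomputable def Trans.prol [NeZero r] : α ⊕ Fin r → α ⊕ Fin r → α ⊕ Fin r
  | .inl i, .inl j => if h : ∃ t, T.cT t i = j then .inr h.choose else .inl (M i j)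
  | .inl i, .inr t => .inl (T.sT t i)
  | .inr t, .inl j => .inl (T.sT t ((T.cT t).symm j))
  | .inr t, .inr u => .inr (t + u)

variable [NeZero r]

theorem Trans.prol_marked (t : Fin r) (i : α) :
    T.prol (.inl i) (.inl (T.cT t i)) = .inr t := by
  have h : ∃ u, T.cT u i = T.cT t i := ⟨t, rfl⟩
  have h1 : T.prol (.inl i) (.inl (T.cT t i)) = .inr h.choose := by
    simp only [Trans.prol]
    rw [dif_pos h]
  rw [h1]
  exact congrArg _ (T.hd i _ _ h.choose_spec)

theorem Trans.prol_unmarked {i j : α} (h : ∀ t, T.cT t i ≠ j) :
    T.prol (.inl i) (.inl j) = .inl (M i j) := by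
  simp only [Trans.prol]
  rw [dif_neg]
  rintro ⟨t, ht⟩
  exact h t ht

theorem Trans.prol_latin (hM : IsLatin M) : IsLatin T.prol := by
  refine ⟨fun x => Finite.injective_iff_bijective.mp ?_,
    fun y => Finite.injective_iff_bijective.mp ?_⟩
  · rcases x with i | t
    · have key : ∀ j u, T.prol (.inl i) (.inl j) ≠ T.prol (.inl i) (.inr u) := by
        intro j u h
        by_cases hj : ∃ t, T.cT t i = j
        · obtain ⟨t, rfl⟩ := hj
          rw [T.prol_marked] at h
          exact absurd h (by simp [Trans.prol])
        · have hj' : ∀ t, T.cT t i ≠ j := fun t ht => hj ⟨t, ht⟩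
          rw [T.prol_unmarked hj'] at h
          simp only [Trans.prol, Sum.inl.injEq] at h
          rw [← T.hM] at h
          exact hj' u ((hM.1 i).1 h).symm
      rintro (j | u) (j' | u') h
      · by_cases hj : ∃ t, T.cT t i = j
        · obtain ⟨t, rfl⟩ := hj
          by_cases hj' : ∃ t, T.cT t i = j'
          · obtain ⟨t', rfl⟩ := hj'
            simp only [T.prol_marked, Sum.inr.injEq] at h
            rw [h]
          · rw [T.prol_marked, T.prol_unmarked (fun t ht => hj' ⟨t, ht⟩)] at h
            exact absurd h (by simp)
        · rw [T.prol_unmarked (fun t ht => hj ⟨t, ht⟩)] at h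
          by_cases hj' : ∃ t, T.cT t i = j'
          · obtain ⟨t', rfl⟩ := hj'
            rw [T.prol_marked] at h
            exact absurd h (by simp)
          · rw [T.prol_unmarked (fun t ht => hj' ⟨t, ht⟩)] at h
            simp only [Sum.inl.injEq] at h
            rw [(hM.1 i).1 h]
      · exact absurd h (key j u')
      · exact absurd h.symm (key j' u)
      · simp only [Trans.prol, Sum.inl.injEq] at h
        rw [← T.hM, ← T.hM] at h
        rw [T.hd i _ _ ((hM.1 i).1 h)]
    · rintro (j | u) (j' | u') h
      · simp only [Trans.prol, Sum.inl.injEq] at h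
        rw [(T.cT t).symm.injective ((T.sT t).injective h)]
      · exact absurd h (by simp [Trans.prol])
      · exact absurd h (by simp [Trans.prol])
      · simp only [Trans.prol, Sum.inr.injEq] at h
        rw [add_left_cancel h]
  · rcases y with j | t
    · have key : ∀ i u, T.prol (.inl i) (.inl j) ≠ T.prol (.inr u) (.inl j) := by
        intro i u h
        by_cases hj : ∃ t, T.cT t i = j
        · obtain ⟨t, rfl⟩ := hj
          rw [T.prol_marked] at h
          exact absurd h (by simp [Trans.prol])
        · have hj' : ∀ t, T.cT t i ≠ j := fun t ht => hj ⟨t, ht⟩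
          rw [T.prol_unmarked hj'] at h
          simp only [Trans.prol, Sum.inl.injEq] at h
          rw [← T.hM, Equiv.apply_symm_apply] at h
          apply hj' u
          have h2 := (hM.2 j).1 h
          rw [h2, Equiv.apply_symm_apply]
      rintro (i | u) (i' | u') h
      · by_cases hj : ∃ t, T.cT t i = j
        · obtain ⟨t, ht⟩ := hj
          by_cases hj' : ∃ t, T.cT t i' = j
          · obtain ⟨t', ht'⟩ := hj'
            have h1 := T.prol_marked t i
            have h2 := T.prol_marked t' i'
            rw [ht] at h1
            rw [ht'] at h2
            simp only at h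
            rw [h1, h2, Sum.inr.injEq] at h
            subst h
            rw [(T.cT t).injective (ht.trans ht'.symm)]
          · have h1 := T.prol_marked t i
            rw [ht] at h1
            simp only at h
            rw [h1, T.prol_unmarked (fun t ht => hj' ⟨t, ht⟩)] at h
            exact absurd h (by simp)
        · simp only at h
          rw [T.prol_unmarked (fun t ht => hj ⟨t, ht⟩)] at h
          by_cases hj' : ∃ t, T.cT t i' = j
          · obtain ⟨t', ht'⟩ := hj'
            have h2 := T.prol_marked t' i'
            rw [ht'] at h2
            rw [h2] at h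
            exact absurd h (by simp)
          · rw [T.prol_unmarked (fun t ht => hj' ⟨t, ht⟩)] at h
            simp only [Sum.inl.injEq] at h
            rw [(hM.2 j).1 h]
      · exact absurd h (key i u')
      · exact absurd h.symm (key i' u)
      · simp only [Trans.prol, Sum.inl.injEq] at h
        rw [← T.hM, ← T.hM, Equiv.apply_symm_apply, Equiv.apply_symm_apply] at h
        have h2 := (hM.2 j).1 h
        have h3 : T.cT u ((T.cT u).symm j) = T.cT u' ((T.cT u).symm j) := by
          rw [Equiv.apply_symm_apply, h2, Equiv.apply_symm_apply]
        rw [T.hd _ _ _ h3]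
    · rintro (i | u) (i' | u') h
      · simp only [Trans.prol, Sum.inl.injEq] at h
        rw [(T.sT t).injective h]
      · exact absurd h (by simp [Trans.prol])
      · exact absurd h (by simp [Trans.prol])
      · simp only [Trans.prol, Sum.inr.injEq] at h
        rw [add_right_cancel h]

end Pool.Agent.V7H52.PX
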