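import Pool.Agent.V7H52.PX.Prol

/-!
# The plex of a prolonged Latin square
-/

set_option autoImplicit false

namespace Pool.Agent.V7H52.PX

open Finset

/-- plex data: the part `P` of the plex away from the transversals, and the three sets of cells of the
transversals -/
structure PlexData {α : Type} [Fintype α] [DecidableEq α] {r : ℕ} {M : α → α → α} (T : Trans M r)
    (k : ℕ) where
  /-- the cells away from the transversals -/
  P : α → α → Bool
  /-- the cells `(new t, j)` -/
  A : α → Bool
  /-- the cells `(i, new t)` -/
  B : α → Bool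
  /-- the cells with symbol `new t` -/
  C : α → Bool
  hPu : ∀ i j, P i j = true → ∀ t, T.cT t i ≠ j
  hAs : ∀ t i, A (T.sT t i) = A (T.cT t i)
  hBs : ∀ t i, B (T.sT t i) = B i
  hCc : ∀ t i, C (T.cT t i) = C i
  hrow : ∀ i, ∑ j, (P i j).toNat + r * (B i).toNat + r * (C i).toNat = k
  hcol : ∀ j, ∑ i, (P i j).toNat + r * (A j).toNat + r * (C j).toNat = k
  hsym : ∀ s, ∑ i, ∑ j, (if P i j = true ∧ M i j = s then 1 else 0) +
    r * (A s).toNat + r * (B s).toNat = k
  hA : ∑ i, (A i).toNat = k
  hB : ∑ i, (B i).toNat = k
  hC : ∑ i, (C i).toNat = k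

variable {α : Type} [Fintype α] [DecidableEq α] {r : ℕ} {M : α → α → α} {T : Trans M r} {k : ℕ}
  [NeZero r] (D : PlexData T k)

/-- the cells of the new plex -/
def PlexData.Q : α ⊕ Fin r → α ⊕ Fin r → Prop
  | .inl i, .inl j => D.P i j = true ∨ (D.C i = true ∧ ∃ t, T.cT t i = j)
  | .inl i, .inr _ => D.B i = true
  | .inr _, .inl j => D.A j = true
  | .inr _, .inr _ => False

open Classical in
/-- the new plex -/
noncomputable def PlexData.S : Finset ((α ⊕ Fin r) × (α ⊕ Fin r)) :=
  Finset.univ.filter fun c => D.Q c.1 c.2

open Classical in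
theorem card_row {X Y : Type} [Fintype X] [Fintype Y] [DecidableEq X] (Q : X → Y → Prop) (x : X) :
    ((Finset.univ.filter fun c : X × Y => Q c.1 c.2).filter fun c => c.1 = x).card =
      ∑ y, if Q x y then 1 else 0 := by
  rw [Finset.filter_filter, Finset.card_filter, Fintype.sum_prod_type, Finset.sum_eq_single x]
  · refine Finset.sum_congr rfl fun y _ => ?_
    simp
  · intro x' _ hx
    refine Finset.sum_eq_zero fun y _ => ?_
    simp [hx]
  · intro h
    exact absurd (Finset.mem_univ x) h

open Classical in
theorem card_col {X Y : Type} [Fintype X] [Fintype Y] [DecidableEq Y] (Q : X → Y → Prop) (y : Y) :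
    ((Finset.univ.filter fun c : X × Y => Q c.1 c.2).filter fun c => c.2 = y).card =
      ∑ x, if Q x y then 1 else 0 := by
  rw [Finset.filter_filter, Finset.card_filter, Fintype.sum_prod_type_right,
    Finset.sum_eq_single y]
  · refine Finset.sum_congr rfl fun x _ => ?_
    simp
  · intro x' _ hx
    refine Finset.sum_eq_zero fun y _ => ?_
    simp [hx]
  · intro h
    exact absurd (Finset.mem_univ y) h

open Classical in
theorem card_sym {X Y Z : Type} [Fintype X] [Fintype Y] [DecidableEq Z] (Q : X → Y → Prop)
    (F : X → Y → Z) (z : Z) :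
    ((Finset.univ.filter fun c : X × Y => Q c.1 c.2).filter fun c => F c.1 c.2 = z).card =
      ∑ x, ∑ y, if Q x y ∧ F x y = z then 1 else 0 := by
  rw [Finset.filter_filter, Finset.card_filter, Fintype.sum_prod_type]

theorem toNat_eq (b : Bool) : (if b = true then 1 else 0) = b.toNat := by cases b <;> rfl

theorem toNat_eq' {p : Prop} [Decidable p] (b : Bool) (h : p ↔ b = true) :
    (if p then 1 else 0) = b.toNat := by
  rw [← toNat_eq]
  exact if_congr h rfl rfl

open Classical in
theorem PlexData.ind (i j : α) : (if D.Q (.inl i) (.inl j) then 1 else 0) =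
    (D.P i j).toNat + ∑ t, (if T.cT t i = j then (D.C i).toNat else 0) := by
  by_cases hj : ∃ t, T.cT t i = j
  · have hP : D.P i j = false := by
      by_contra h
      obtain ⟨t, ht⟩ := hj
      exact D.hPu i j (by simpa using h) t ht
    obtain ⟨t, ht⟩ := hj
    have h1 : ∑ t, (if T.cT t i = j then (D.C i).toNat else 0) = (D.C i).toNat := by
      rw [Finset.sum_eq_single t]
      · simp [ht]
      · intro u _ hu
        rw [if_neg]
        intro h
        exact hu (T.hd i _ _ (h.trans ht.symm))
      · intro h
        exact absurd (Finset.mem_univ t) h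
    rw [h1, hP, Bool.toNat_false, zero_add]
    have : (∃ t, T.cT t i = j) := ⟨t, ht⟩
    exact toNat_eq' _ (by simp [PlexData.Q, hP, this])
  · have h1 : ∑ t, (if T.cT t i = j then (D.C i).toNat else 0) = 0 := by
      refine Finset.sum_eq_zero fun t _ => ?_
      rw [if_neg]
      exact fun h => hj ⟨t, h⟩
    rw [h1, add_zero]
    exact toNat_eq' _ (by simp [PlexData.Q, hj])

open Classical in
theorem PlexData.ind_inl (i j s : α) :
    (if D.Q (.inl i) (.inl j) ∧ T.prol (.inl i) (.inl j) = .inl s then 1 else 0) =
      if D.P i j = true ∧ M i j = s then 1 else 0 := by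
  by_cases hj : ∃ t, T.cT t i = j
  · obtain ⟨t, rfl⟩ := hj
    have hP : D.P i (T.cT t i) = false := by
      by_contra h
      exact D.hPu i _ (by simpa using h) t rfl
    rw [T.prol_marked]
    simp [hP]
  · rw [T.prol_unmarked (fun t ht => hj ⟨t, ht⟩)]
    simp [PlexData.Q, hj]

open Classical in
theorem PlexData.ind_inr (i j : α) (u : Fin r) :
    (if D.Q (.inl i) (.inl j) ∧ T.prol (.inl i) (.inl j) = .inr u then 1 else 0) =
      if T.cT u i = j then (D.C i).toNat else 0 := by
  by_cases hj : ∃ t, T.cT t i = j
  · obtain ⟨t, rfl⟩ := hj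
    have hP : D.P i (T.cT t i) = false := by
      by_contra h
      exact D.hPu i _ (by simpa using h) t rfl
    rw [T.prol_marked]
    by_cases hut : u = t
    · subst hut
      rw [if_pos rfl]
      have : ∃ t, T.cT t i = T.cT u i := ⟨u, rfl⟩
      exact toNat_eq' _ (by simp [PlexData.Q, hP, this])
    · rw [if_neg, if_neg]
      · intro h
        exact hut (T.hd i _ _ h)
      · rintro ⟨-, h⟩
        exact hut (Sum.inr.inj h).symm
  · rw [T.prol_unmarked (fun t ht => hj ⟨t, ht⟩), if_neg, if_neg]
    · exact fun h => hj ⟨u, h⟩
    · rintro ⟨-, h⟩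
      exact absurd h (by simp)

theorem PlexData.isPlex : IsPlex T.prol k D.S := by
  classical
  have hAs' : ∀ (t : Fin r) s, D.A (T.cT t ((T.sT t).symm s)) = D.A s := by
    intro t s
    rw [← D.hAs, Equiv.apply_symm_apply]
  have hBs' : ∀ (t : Fin r) s, D.B ((T.sT t).symm s) = D.B s := by
    intro t s
    rw [← D.hBs t, Equiv.apply_symm_apply]
  have hCc' : ∀ (t : Fin r) s, D.C ((T.cT t).symm s) = D.C s := by
    intro t s
    rw [← D.hCc t, Equiv.apply_symm_apply]
  refine ⟨fun x => ?_, fun y => ?_, fun z => ?_⟩
  · have h0 := card_row D.Q x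
    unfold PlexData.S
    rw [h0]
    rcases x with i | t
    · rw [Fintype.sum_sum_type, Finset.sum_congr rfl (fun j _ => D.ind i j),
        Finset.sum_add_distrib, Finset.sum_comm]
      have h1 : ∀ t : Fin r, ∑ j, (if T.cT t i = j then (D.C i).toNat else 0) = (D.C i).toNat := by
        intro t
        rw [Finset.sum_ite_eq, if_pos (Finset.mem_univ _)]
      have h2 : ∀ t : Fin r, (if D.Q (.inl i) (.inr t) then 1 else 0) = (D.B i).toNat := by
        intro t
        exact toNat_eq' _ Iff.rfl
      rw [Finset.sum_congr rfl (fun t _ => h1 t), Finset.sum_congr rfl (fun t _ => h2 t),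
        Finset.sum_const, Finset.sum_const, Finset.card_univ, Fintype.card_fin, smul_eq_mul,
        smul_eq_mul]
      have := D.hrow i
      omega
    · rw [Fintype.sum_sum_type]
      have h1 : ∀ j, (if D.Q (.inr t) (.inl j) then 1 else 0) = (D.A j).toNat := by
        intro j
        exact toNat_eq' _ Iff.rfl
      have h2 : ∀ u : Fin r, (if D.Q (.inr t) (.inr u) then 1 else 0) = 0 := by
        intro u
        exact if_neg (fun h => h)
      rw [Finset.sum_congr rfl (fun j _ => h1 j), Finset.sum_congr rfl (fun u _ => h2 u),
        Finset.sum_const_zero, D.hA, add_zero]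
  · have h0 := card_col D.Q y
    unfold PlexData.S
    rw [h0]
    rcases y with j | t
    · rw [Fintype.sum_sum_type, Finset.sum_congr rfl (fun i _ => D.ind i j),
        Finset.sum_add_distrib, Finset.sum_comm]
      have h1 : ∀ t : Fin r, ∑ i, (if T.cT t i = j then (D.C i).toNat else 0) = (D.C j).toNat := by
        intro t
        rw [Finset.sum_eq_single ((T.cT t).symm j)]
        · rw [if_pos (Equiv.apply_symm_apply _ _), hCc']
        · intro i _ hi
          rw [if_neg]
          intro h
          apply hi
          rw [← h, Equiv.symm_apply_apply]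
        · intro h
          exact absurd (Finset.mem_univ _) h
      have h2 : ∀ t : Fin r, (if D.Q (.inr t) (.inl j) then 1 else 0) = (D.A j).toNat := by
        intro t
        exact toNat_eq' _ Iff.rfl
      rw [Finset.sum_congr rfl (fun t _ => h1 t), Finset.sum_congr rfl (fun t _ => h2 t),
        Finset.sum_const, Finset.sum_const, Finset.card_univ, Fintype.card_fin, smul_eq_mul,
        smul_eq_mul]
      have := D.hcol j
      omega
    · rw [Fintype.sum_sum_type]
      have h1 : ∀ i, (if D.Q (.inl i) (.inr t) then 1 else 0) = (D.B i).toNat := by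
        intro i
        exact toNat_eq' _ Iff.rfl
      have h2 : ∀ u : Fin r, (if D.Q (.inr u) (.inr t) then 1 else 0) = 0 := by
        intro u
        exact if_neg (fun h => h)
      rw [Finset.sum_congr rfl (fun i _ => h1 i), Finset.sum_congr rfl (fun u _ => h2 u),
        Finset.sum_const_zero, D.hB, add_zero]
  · have h0 := card_sym D.Q T.prol z
    unfold PlexData.S
    rw [h0, Fintype.sum_sum_type]
    simp only [Fintype.sum_sum_type]
    rcases z with s | u
    · have e1 : ∑ i, (∑ j, (if D.Q (.inl i) (.inl j) ∧ T.prol (.inl i) (.inl j) = .inl s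
            then 1 else 0) +
          ∑ t : Fin r, (if D.Q (.inl i) (.inr t) ∧ T.prol (.inl i) (.inr t) = .inl s
            then 1 else 0)) =
          ∑ i, ∑ j, (if D.P i j = true ∧ M i j = s then 1 else 0) + r * (D.B s).toNat := by
        rw [Finset.sum_add_distrib]
        congr 1
        · exact Finset.sum_congr rfl fun i _ => Finset.sum_congr rfl fun j _ => D.ind_inl i j s
        · rw [Finset.sum_comm]
          have h1 : ∀ t : Fin r, ∑ i, (if D.Q (.inl i) (.inr t) ∧
              T.prol (.inl i) (.inr t) = .inl s then 1 else 0) = (D.B s).toNat := by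
            intro t
            rw [Finset.sum_eq_single ((T.sT t).symm s)]
            · rw [← hBs' t s]
              exact toNat_eq' _ (by simp [PlexData.Q, Trans.prol])
            · intro i _ hi
              rw [if_neg]
              rintro ⟨-, h⟩
              apply hi
              simp only [Trans.prol, Sum.inl.injEq] at h
              rw [← h, Equiv.symm_apply_apply]
            · intro h
              exact absurd (Finset.mem_univ _) h
          rw [Finset.sum_congr rfl (fun t _ => h1 t), Finset.sum_const, Finset.card_univ,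
            Fintype.card_fin, smul_eq_mul]
      have e2 : ∑ t : Fin r, (∑ j, (if D.Q (.inr t) (.inl j) ∧ T.prol (.inr t) (.inl j) = .inl s
            then 1 else 0) +
          ∑ u : Fin r, (if D.Q (.inr t) (.inr u) ∧ T.prol (.inr t) (.inr u) = .inl s
            then 1 else 0)) = r * (D.A s).toNat := by
        have h1 : ∀ t : Fin r, (∑ j, (if D.Q (.inr t) (.inl j) ∧
            T.prol (.inr t) (.inl j) = .inl s then 1 else 0) +
            ∑ u : Fin r, (if D.Q (.inr t) (.inr u) ∧ T.prol (.inr t) (.inr u) = .inl s
              then 1 else 0)) = (D.A s).toNat := by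
          intro t
          have z2 : ∑ u : Fin r, (if D.Q (.inr t) (.inr u) ∧
              T.prol (.inr t) (.inr u) = .inl s then 1 else 0) = 0 := by
            refine Finset.sum_eq_zero fun v _ => ?_
            rw [if_neg]
            rintro ⟨h, -⟩
            exact h
          rw [z2, add_zero, Finset.sum_eq_single (T.cT t ((T.sT t).symm s))]
          · rw [← hAs' t s]
            exact toNat_eq' _ (by simp [PlexData.Q, Trans.prol])
          · intro j _ hj
            rw [if_neg]
            rintro ⟨-, h⟩
            apply hj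
            simp only [Trans.prol, Sum.inl.injEq] at h
            rw [← h, Equiv.symm_apply_apply, Equiv.apply_symm_apply]
          · intro h
            exact absurd (Finset.mem_univ _) h
        rw [Finset.sum_congr rfl (fun t _ => h1 t), Finset.sum_const, Finset.card_univ,
          Fintype.card_fin, smul_eq_mul]
      rw [e1, e2]
      have := D.hsym s
      omega
    · have e1 : ∀ i, (∑ j, (if D.Q (.inl i) (.inl j) ∧ T.prol (.inl i) (.inl j) = .inr u
            then 1 else 0) +
          ∑ t : Fin r, (if D.Q (.inl i) (.inr t) ∧ T.prol (.inl i) (.inr t) = .inr u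
            then 1 else 0)) = (D.C i).toNat := by
        intro i
        rw [Finset.sum_congr rfl fun j _ => D.ind_inr i j u, Finset.sum_ite_eq,
          if_pos (Finset.mem_univ _), Finset.sum_eq_zero, add_zero]
        intro t _
        rw [if_neg]
        rintro ⟨-, h⟩
        exact absurd h (by simp [Trans.prol])
      have e2 : ∀ t : Fin r, (∑ j, (if D.Q (.inr t) (.inl j) ∧
            T.prol (.inr t) (.inl j) = .inr u then 1 else 0) +
          ∑ v : Fin r, (if D.Q (.inr t) (.inr v) ∧ T.prol (.inr t) (.inr v) = .inr u
            then 1 else 0)) = 0 := by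
        intro t
        have z1 : ∑ j, (if D.Q (.inr t) (.inl j) ∧
            T.prol (.inr t) (.inl j) = .inr u then 1 else 0) = 0 := by
          refine Finset.sum_eq_zero fun j _ => ?_
          rw [if_neg]
          rintro ⟨-, h⟩
          exact absurd h (by simp [Trans.prol])
        have z2 : ∑ v : Fin r, (if D.Q (.inr t) (.inr v) ∧
            T.prol (.inr t) (.inr v) = .inr u then 1 else 0) = 0 := by
          refine Finset.sum_eq_zero fun v _ => ?_
          rw [if_neg]
          rintro ⟨h, -⟩
          exact h
        rw [z1, z2]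
      rw [Finset.sum_congr rfl fun i _ => e1 i, Finset.sum_congr rfl fun t _ => e2 t, D.hC,
        Finset.sum_const_zero, add_zero]

/-- zero-sum labels on the prolonged square -/
theorem PlexData.zero {N : ℕ} (a b c : α → ZMod N) (a' b' c' : Fin r → ZMod N)
    (hP : ∀ i j, D.P i j = true → a i + b j + c (M i j) = 0)
    (hA : ∀ t i, D.A (T.cT t i) = true → a' t + b (T.cT t i) + c (T.sT t i) = 0)
    (hB : ∀ t i, D.B i = true → a i + b' t + c (T.sT t i) = 0)
    (hC : ∀ t i, D.C i = true → a i + b (T.cT t i) + c' t = 0) :
    ∀ p ∈ D.S, Sum.elim a a' p.1 + Sum.elim b b' p.2 + Sum.elim c c' (T.prol p.1 p.2) = 0 := by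
  classical
  rintro ⟨x, y⟩ hp
  unfold PlexData.S at hp
  rw [Finset.mem_filter] at hp
  have hq := hp.2
  rcases x with i | t <;> rcases y with j | u
  · rcases hq with h | ⟨h, t, rfl⟩
    · simp only
      rw [T.prol_unmarked (D.hPu i j h)]
      simpa using hP i j h
    · simp only
      rw [T.prol_marked]
      simpa using hC t i h
  · simpa [Trans.prol] using hB u i hq
  · have h := hA t ((T.cT t).symm j) (by rw [Equiv.apply_symm_apply]; exact hq)
    simpa [Trans.prol] using h
  · exact absurd hq (fun h => h)

end Pool.Agent.V7H52.PX
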